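import Pool.Agent.Run7.h311.MO.Boot

/-! # Decay to the right of the mollified zeta function, with a uniform length of the weight -/

open Complex Filter Topology Set MeasureTheory
open scoped BigOperators ComplexConjugate

namespace Run7.h311.MO

open H370 hiding pt
open TC Pool.Agent.N802 Pool.Agent.N802.U Pool.Agent.N802.WD
open Pool.Agent.R399.TW (pt pt_re pt_im pt_cont)
open Pool.Agent.N786.D (kap kap_cont kap_nn kap_scale cB cB_int cB_nn csE cauchy_le)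

theorem rightC {q : ℕ} {Co : ℝ} (hCo : 0 < Co) (hmsd : Msdc q Co) (hker : S_ker) :
    ∃ κ ε δ : ℝ, 1 ≤ κ ∧ 0 < ε ∧ 0 < δ ∧ δ ≤ 1 / 32 ∧ Co * Real.sqrt δ ≤ ε ∧
    ∀ β₁ β₂ : ℝ, 0 < β₁ → β₁ < β₂ → β₂ ≤ 1 / 5 →
    ∃ C₀ C T0 : ℝ, 0 < C₀ ∧ 0 < C ∧ 10 ≤ T0 ∧
    ∀ T : ℝ, T0 ≤ T → ∃ (V : ℝ → ℝ) (K : ℝ → ℝ → ℂ),
    Cutf (Real.log T) β₁ β₂ (2 * κ + 1) (q + 4) ε C₀ V K ∧
    ∀ S : Finset ℕ, Len S (T ^ δ) → ∀ (r : ℕ → ℂ) (τ H : ℝ), T ^ (1 - δ) ≤ H →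
    ∀ x : ℝ, |x| ≤ T / 4 → ∀ ρ : ℝ, -(1 / (2 * Real.log T)) ≤ ρ → ρ ≤ 30 →
    ∫ t in T..(2 * T), rh τ H S r t *
      ‖riemannZeta (pt (1 / 2 + ρ) (t + x)) * Mp V ⌊T ^ β₂⌋₊ (pt (1 / 2 + ρ) (t + x)) - 1‖ ^ 2 ≤
      C * Real.exp (-(β₁ * Real.log T * ρ)) * mr H S r := by
  obtain ⟨κ, ε, δ, hκ, hε, hδ, hδ32, hδε, HH⟩ := bootC hCo hmsd hker
  refine ⟨κ, ε, δ, hκ, hε, hδ, hδ32, hδε, fun β₁ β₂ hb1 hb12 hb2' => ?_⟩
  obtain ⟨C₀, C, T0, hC₀, hC, hT0, H⟩ := HH β₁ β₂ hb1 hb12 hb2'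
  have hb2 : β₂ < 1 / 2 := by linarith
  obtain ⟨T1, hT1, Hm⟩ := rh_mass
  obtain ⟨D, hD⟩ : ∃ D : ℝ, D = 31 ^ 0 * cB 4 0 * (31 ^ 6 * cB 4 6) * WD.KK C := ⟨_, rfl⟩
  have hKK : 0 ≤ WD.KK C := by unfold WD.KK; positivity
  have hD0 : 0 ≤ D := by
    rw [hD]
    have h1 := cB_nn 4 0
    have h2 := cB_nn 4 6
    positivity
  refine ⟨C₀, D + 1, max (max T0 T1) (Real.exp (max 10 (4 / β₁))),
    hC₀, by linarith,
    hT0.trans ((le_max_left _ _).trans (le_max_left _ _)), fun T hT => ?_⟩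
  have hTT0 : T0 ≤ T := ((le_max_left _ _).trans (le_max_left _ _)).trans hT
  have hTT1 : T1 ≤ T := ((le_max_right _ _).trans (le_max_left _ _)).trans hT
  have hT10 : 10 ≤ T := hT0.trans hTT0
  have hTpos : 0 < T := by linarith
  have hLb : max 10 (4 / β₁) ≤ Real.log T := by
    rw [Real.le_log_iff_exp_le hTpos]
    exact (le_max_right _ _).trans hT
  have hL10 : 10 ≤ Real.log T := (le_max_left _ _).trans hLb
  have hL4 : 4 ≤ β₁ * Real.log T := by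
    have := (le_max_right _ _).trans hLb
    rw [div_le_iff₀ hb1] at this
    linarith
  obtain ⟨V, K, hcf, hms⟩ := H T hTT0
  have hV : ∀ x, 0 ≤ V x ∧ V x ≤ 1 := fun x => ⟨hcf.nn x, hcf.le x⟩
  have hV1 := hcf.one
  have hV0 := hcf.zero
  refine ⟨V, K, hcf, fun S hS r τ Hh hH x hx ρ hρ1 hρ2 => ?_⟩
  have hT1' : 1 ≤ T := by linarith
  have hmn : δ ≤ δ := le_rfl
  have hmn' : δ ≤ 1 / 8 := by linarith
  have hS1 : Len S (T ^ δ) := Len_mono hS (Real.rpow_le_rpow_of_exponent_le hT1' hmn)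
  have hS2 : Len S (T ^ (1 / 8 : ℝ)) := Len_mono hS (Real.rpow_le_rpow_of_exponent_le hT1' hmn')
  have hH1 : T ^ (1 - δ) ≤ Hh :=
    (Real.rpow_le_rpow_of_exponent_le hT1' (by linarith)).trans hH
  have hH2 : T ^ (7 / 8 : ℝ) ≤ Hh :=
    (Real.rpow_le_rpow_of_exponent_le hT1' (by linarith)).trans hH
  have hHpos : 0 < Hh := lt_of_lt_of_le (Real.rpow_pos_of_pos hTpos _) hH1
  have hmr : 0 ≤ mr Hh S r := by
    unfold mr
    have := w1_nonneg S r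
    positivity
  have hmass : ∫ t in T..(2 * T), rh τ Hh S r t ≤ 2 * mr Hh S r := by
    rw [intervalIntegral.integral_of_le (by linarith)]
    refine (setIntegral_le_integral (rh_intg hHpos S r)
      (Eventually.of_forall fun t => rh_nonneg _ _ _ _ t)).trans ?_
    exact Hm T hTT1 S hS2 r τ Hh hH2
  have hLi : 1 / Real.log T ≤ 1 / 10 := one_div_le_one_div_of_le (by norm_num) hL10
  have hLi0 : 0 < 1 / Real.log T := by positivity
  have hhalf : 1 / (2 * Real.log T) = 1 / Real.log T / 2 := by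
    rw [div_div, mul_comm]
  rw [hhalf] at hρ1
  have key := right_core (a := 1 / 2 - 1 / Real.log T) (ρ := ρ) (x := x) (C := C)
    (m := mr Hh S r) (w0 := rh τ Hh S r) hV hV1 hV0 hT10 rfl hL4 (by linarith) (by linarith)
    (by linarith) (by linarith) (by linarith) (by linarith) hx (rh_cont _ _ _ _)
    (rh_nonneg _ _ _ _) hmr hC.le hmass (fun y hy => hms S hS1 r τ Hh hH1 y hy)
  refine key.trans ?_
  rw [← hD]
  have hE : Real.exp (-(β₁ * Real.log T * (1 / 2 + ρ - (1 / 2 - 1 / Real.log T)))) ≤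
      Real.exp (-(β₁ * Real.log T * ρ)) := by
    apply Real.exp_le_exp.2
    have : 0 ≤ β₁ * Real.log T * (1 / Real.log T) := by positivity
    nlinarith
  have hE0 := Real.exp_pos (-(β₁ * Real.log T * ρ))
  calc D * Real.exp (-(β₁ * Real.log T * (1 / 2 + ρ - (1 / 2 - 1 / Real.log T)))) * mr Hh S r ≤
      (D + 1) * Real.exp (-(β₁ * Real.log T * ρ)) * mr Hh S r := by
        gcongr
        linarith
    _ = _ := by ring

end Run7.h311.MO
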