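import Pool.Agent.N802.WD.Msd
import Pool.Agent.N802.WD.Op

/-!
# The mean square of smooth partial sums times the mollifier, with an explicit length of the weight
-/

set_option autoImplicit false

open Complex Filter Topology Set MeasureTheory
open scoped BigOperators ComplexConjugate

namespace Run7.h311.MO

open Pool.Agent.N802 Pool.Agent.N802.U Pool.Agent.N802.WD Pool.Agent.N802.WD.Msd
open Pool.Agent.R399.TW (pt)

/-- the mean square of a smooth partial sum of zeta times a mollifier, with explicit parameters -/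
def Msdc (q : ℕ) (C0 : ℝ) : Prop := ∀ α₁ α₂ β₁ β₂ κ c C ε δ : ℝ, 0 < α₁ → α₁ < α₂ → 0 < β₁ →
  β₁ < β₂ → 1 ≤ κ → 0 < c → 0 < C → 0 < ε → 0 < δ → C0 * Real.sqrt δ ≤ min ε c →
  α₂ + β₂ + 2 * δ < 1 →
  ∃ a T0 : ℝ, 0 < a ∧ 10 ≤ T0 ∧ ∀ T : ℝ, T0 ≤ T →
  ∀ (V₁ V₂ : ℝ → ℝ) (K₁ K₂ : ℝ → ℝ → ℂ),
  Cutf (Real.log T) α₁ α₂ (2 * κ + 1) (q + 4) c C V₁ K₁ →
  Cutf (Real.log T) β₁ β₂ (2 * κ + 1) (q + 4) c C V₂ K₂ →
  ∀ S : Finset ℕ, Len S (T ^ δ) → ∀ (r : ℕ → ℂ) (τ H : ℝ), T ^ (1 - δ) ≤ H →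
  ∀ k₁ k₂ : ℝ, |k₁| ≤ κ → |k₂| ≤ κ → ∀ x v : ℝ,
  ∫ t : ℝ, rh τ H S r t *
    (‖Dp V₁ ⌊T ^ α₂⌋₊ (pt (1 / 2 + k₁ / Real.log T) (t + x + v))‖ ^ 2 *
      ‖Mp V₂ ⌊T ^ β₂⌋₊ (pt (1 / 2 + k₂ / Real.log T) (t + x))‖ ^ 2) ≤
    a * grow (Real.log T) ε q v * mr H S r

open Msd TC Pool.Agent.N802.U in
open Pool.Agent.R399.TW (pt) in
/-- **MSD** -/
theorem msdc : ∃ (q : ℕ) (C0 : ℝ), 0 < C0 ∧ Msdc q C0 := by
  obtain ⟨C0, q, hC0, hop⟩ := op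
  refine ⟨q, C0, hC0, fun α₁ α₂ β₁ β₂ κ c C ε δ hα₁ hα₂ hβ₁ hβ₂ hκ hc hC hε hδ0 hδ2 hlen => ?_⟩
  obtain ⟨γ, hγ⟩ : ∃ γ : ℝ, γ = α₂ + β₂ + δ := ⟨_, rfl⟩
  obtain ⟨T1, hT1⟩ := ev_T γ (2 * (1 - δ - γ)) (by rw [hγ]; linarith)
  refine ⟨2 * C0 * (C * Real.pi) ^ 4, max 10 T1, by positivity, le_max_left _ _, ?_⟩
  intro T hT V₁ V₂ K₁ K₂ hV₁ hV₂ S hS r τ H hH k₁ k₂ hk₁ hk₂ x v
  have hT10 : 10 ≤ T := (le_max_left _ _).trans hT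
  have hT0 : 0 < T := by linarith
  have hTe := hT1 T ((le_max_right _ _).trans hT)
  obtain ⟨L, hL⟩ : ∃ L : ℝ, L = Real.log T := ⟨_, rfl⟩
  rw [← hL] at hV₁ hV₂ ⊢
  have hL1 : 1 ≤ L := by
    rw [hL, Real.le_log_iff_exp_le hT0]
    have := Real.exp_one_lt_d9
    linarith
  have hL0 : 0 < L := by linarith
  obtain ⟨kk, hkk⟩ : ∃ kk : ℝ, kk = max (max k₁ k₂) 0 + 1 := ⟨_, rfl⟩
  have b1 : k₁ ≤ max (max k₁ k₂) 0 := (le_max_left _ _).trans (le_max_left _ _)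
  have b2 : k₂ ≤ max (max k₁ k₂) 0 := (le_max_right _ _).trans (le_max_left _ _)
  have b3 : 0 ≤ max (max k₁ k₂) 0 := le_max_right _ _
  have b4 : max (max k₁ k₂) 0 ≤ κ := by
    refine max_le (max_le ?_ ?_) (by linarith)
    · exact (le_abs_self _).trans hk₁
    · exact (le_abs_self _).trans hk₂
  have b5 := (abs_le.1 hk₁).1
  have b6 := (abs_le.1 hk₂).1
  have hkk1 : 1 ≤ kk := by rw [hkk]; linarith
  obtain ⟨a₁, ha₁⟩ : ∃ a₁ : ℝ, a₁ = kk - k₁ := ⟨_, rfl⟩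
  obtain ⟨a₂, ha₂⟩ : ∃ a₂ : ℝ, a₂ = kk - k₂ := ⟨_, rfl⟩
  have c1 : 1 ≤ a₁ := by rw [ha₁, hkk]; linarith
  have c2 : a₁ ≤ 2 * κ + 1 := by rw [ha₁, hkk]; linarith
  have c3 : 1 ≤ a₂ := by rw [ha₂, hkk]; linarith
  have c4 : a₂ ≤ 2 * κ + 1 := by rw [ha₂, hkk]; linarith
  obtain ⟨s, hs⟩ : ∃ s : ℝ, s = 1 / 2 + kk / L := ⟨_, rfl⟩
  have hs₁ : (1 / 2 + k₁ / L) + a₁ / L = s := by rw [hs, ha₁]; ring
  have hs₂ : (1 / 2 + k₂ / L) + a₂ / L = s := by rw [hs, ha₂]; ring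
  obtain ⟨hi₁, hm₁⟩ := K_int hC hc (K₁ a₁) (hV₁.cont a₁ c1 c2) (hV₁.bd a₁ c1 c2)
  obtain ⟨hi₂, hm₂⟩ := K_int hC hc (K₂ a₂) (hV₂.cont a₂ c3 c4) (hV₂.bd a₂ c3 c4)
  obtain ⟨N₁, hN₁⟩ : ∃ N₁ : ℕ, N₁ = ⌊T ^ α₂⌋₊ := ⟨_, rfl⟩
  obtain ⟨N₂, hN₂⟩ : ∃ N₂ : ℕ, N₂ = ⌊T ^ β₂⌋₊ := ⟨_, rfl⟩
  rw [← hN₁, ← hN₂]
  have z₁ : ∀ n : ℕ, N₁ < n → V₁ (Real.log n) = 0 := by
    intro n hn
    apply hV₁.zero
    rw [hN₁] at hn
    have h1 := Nat.lt_of_floor_lt hn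
    rw [hL, ← Real.log_rpow hT0]
    exact Real.log_le_log (by positivity) h1.le
  have z₂ : ∀ n : ℕ, N₂ < n → V₂ (Real.log n) = 0 := by
    intro n hn
    apply hV₂.zero
    rw [hN₂] at hn
    have h1 := Nat.lt_of_floor_lt hn
    rw [hL, ← Real.log_rpow hT0]
    exact Real.log_le_log (by positivity) h1.le
  obtain ⟨P, hP⟩ : ∃ P : Finset ℕ, P = (Finset.Icc 1 N₁ ×ˢ Finset.Icc 1 N₂).image
    (fun z => z.1 * z.2) := ⟨_, rfl⟩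
  obtain ⟨Q, hQ⟩ : ∃ Q : Finset ℕ, Q = (P ×ˢ S).image (fun z => z.1 * z.2) := ⟨_, rfl⟩
  have hP1 : ∀ m ∈ P, 1 ≤ m ∧ (m : ℝ) ≤ T ^ (α₂ + β₂) := by
    intro m hm
    rw [hP, Finset.mem_image] at hm
    obtain ⟨z, hz, rfl⟩ := hm
    rw [Finset.mem_product, Finset.mem_Icc, Finset.mem_Icc] at hz
    refine ⟨Nat.mul_pos (by omega) (by omega), ?_⟩
    rw [Real.rpow_add hT0]
    push_cast
    have h1 : (z.1 : ℝ) ≤ T ^ α₂ := by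
      have h2 : (z.1 : ℝ) ≤ (N₁ : ℝ) := by exact_mod_cast hz.1.2
      rw [hN₁] at h2
      exact h2.trans (Nat.floor_le (by positivity))
    have h3 : (z.2 : ℝ) ≤ T ^ β₂ := by
      have h2 : (z.2 : ℝ) ≤ (N₂ : ℝ) := by exact_mod_cast hz.2.2
      rw [hN₂] at h2
      exact h2.trans (Nat.floor_le (by positivity))
    exact mul_le_mul h1 h3 (by positivity) (by positivity)
  have hQ1 : ∀ m ∈ Q, 1 ≤ m ∧ (m : ℝ) ≤ T ^ γ := by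
    intro m hm
    rw [hQ, Finset.mem_image] at hm
    obtain ⟨z, hz, rfl⟩ := hm
    rw [Finset.mem_product] at hz
    have h1 := hP1 _ hz.1
    have h2 := hS _ hz.2
    refine ⟨Nat.mul_pos (by omega) (by omega), ?_⟩
    rw [hγ, Real.rpow_add hT0]
    push_cast
    exact mul_le_mul h1.2 h2.2 (by positivity) (by positivity)
  obtain ⟨cc, hcc⟩ : ∃ cc : ℕ → ℂ, cc = cv (Finset.Icc 1 N₁) (Finset.Icc 1 N₂)
    (dn V₁ (1 / 2 + k₁ / L) (x + v)) (bn V₂ (1 / 2 + k₂ / L) x) := ⟨_, rfl⟩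
  -- the integrand
  have hint : ∀ t : ℝ, rh τ H S r t *
      (‖Dp V₁ N₁ (pt (1 / 2 + k₁ / L) (t + x + v))‖ ^ 2 *
        ‖Mp V₂ N₂ (pt (1 / 2 + k₂ / L) (t + x))‖ ^ 2) =
      om τ H t * ‖RP Q (cv P S cc r) t‖ ^ 2 := by
    intro t
    have e1 : t + x + v = t + (x + v) := by ring
    rw [e1, Dp_eq, Mp_eq]
    have e2 := RP_mul (Finset.Icc 1 N₁) (Finset.Icc 1 N₂) (dn V₁ (1 / 2 + k₁ / L) (x + v))
      (bn V₂ (1 / 2 + k₂ / L) x) (fun k hk => (Finset.mem_Icc.1 hk).1)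
      (fun k hk => (Finset.mem_Icc.1 hk).1) P (fun m hm n hn => by
        rw [hP, Finset.mem_image]
        exact ⟨(m, n), Finset.mem_product.2 ⟨hm, hn⟩, rfl⟩) t
    have e3 := RP_mul P S cc r (fun k hk => (hP1 k hk).1) (fun k hk => (hS k hk).1) Q
      (fun m hm n hn => by
        rw [hQ, Finset.mem_image]
        exact ⟨(m, n), Finset.mem_product.2 ⟨hm, hn⟩, rfl⟩) t
    rw [← hcc] at e2
    rw [← e3, ← e2, norm_mul, norm_mul]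
    unfold rh
    ring
  simp only [hint]
  -- the mean value
  have hH0 : 0 < H := lt_of_lt_of_le (by positivity) hH
  have hγ1 : 1 ≤ T ^ γ := Real.one_le_rpow (by linarith) (by rw [hγ]; linarith)
  have hms := ms Q (cv P S cc r) τ H (T ^ γ) hH0 hγ1 hQ1 (by
    refine le_trans ?_ hTe
    refine mul_le_mul_of_nonneg_left (Real.exp_le_exp.2 ?_) (by positivity)
    have h1 : (T ^ (1 - δ)) ^ 2 ≤ H ^ 2 := pow_le_pow_left₀ (by positivity) hH 2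
    have h2 : T ^ (2 * (1 - δ - γ)) / 8 = (T ^ (1 - δ)) ^ 2 / (8 * (T ^ γ) ^ 2) := by
      rw [← Real.rpow_natCast, ← Real.rpow_natCast, ← Real.rpow_mul hT0.le, ← Real.rpow_mul hT0.le]
      have e : 2 * (1 - δ - γ) = (1 - δ) * ((2 : ℕ) : ℝ) - γ * ((2 : ℕ) : ℝ) := by
        push_cast; ring
      rw [e, Real.rpow_sub hT0]
      field_simp
    rw [h2, neg_div]
    apply neg_le_neg
    exact div_le_div_of_nonneg_right h1 (by positivity))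
  refine hms.trans ?_
  -- the coefficients
  have hcm : ∀ m ∈ P, cc m = ∫ y : ℝ × ℝ, (K₁ a₁ y.1 * K₂ a₂ y.2) * ey L s x v y m := by
    intro m hm
    rw [hcc]
    exact cm_int V₁ V₂ (K₁ a₁) (K₂ a₂) a₁ a₂ _ _ L s x v hs₁ hs₂ (hV₁.rep a₁ c1 c2)
      (hV₂.rep a₂ c3 c4) hi₁ hi₂ N₁ N₂ z₁ z₂ m (hP1 m hm).1
  obtain ⟨bd, hbd⟩ : ∃ bd : ℝ × ℝ → ℝ, bd = fun y => (C0 * w1 S r * grow L ε q v) *
    ((C * (1 + y.1 ^ 2)⁻¹) * (C * (1 + y.2 ^ 2)⁻¹)) := ⟨_, rfl⟩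
  have hI2 : Integrable (fun y : ℝ => C * (1 + y ^ 2)⁻¹) := integrable_inv_one_add_sq.const_mul C
  have hbi : Integrable bd := by
    rw [hbd, Measure.volume_eq_prod]
    exact (hI2.mul_prod hI2).const_mul _
  have hbv : ∫ y, bd y = (C0 * w1 S r * grow L ε q v) * (C * Real.pi) ^ 2 := by
    rw [hbd, Measure.volume_eq_prod, integral_const_mul,
      integral_prod_mul (fun y => C * (1 + y ^ 2)⁻¹) (fun y => C * (1 + y ^ 2)⁻¹),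
      integral_const_mul, integral_univ_inv_one_add_sq]
    ring
  have hTδ : 1 ≤ T ^ δ := Real.one_le_rpow (by linarith) hδ0.le
  have hlogN : Real.log (T ^ δ) = δ * L := by rw [Real.log_rpow hT0, hL]
  have hw0 : 0 ≤ w1 S r := w1_nonneg S r
  have hpt : ∀ y : ℝ × ℝ, ‖K₁ a₁ y.1‖ * ‖K₂ a₂ y.2‖ *
      ∑ k ∈ Q, ‖cv P S (ey L s x v y) r k‖ ^ 2 ≤ bd y := by
    intro y
    have h1 := hop L (T ^ δ) kk (v + (y.1 - y.2) / L) hL1 hTδ hkk1 P (ey L s x v y)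
      (fun m hm => ⟨(hP1 m hm).1, by rw [ey_norm L s x v y m (hP1 m hm).1, hs]⟩) S hS r Q
    rw [hlogN] at h1
    have h2 := growth C0 c ε L δ v y.1 y.2 q hC0 hL1 hδ0.le (hδ2.trans (min_le_left _ _))
      (hδ2.trans (min_le_right _ _))
    have h3 : ∑ k ∈ Q, ‖cv P S (ey L s x v y) r k‖ ^ 2 ≤ C0 * w1 S r *
        (grow L ε q v * (((1 + |y.1|) ^ q * Real.exp (c * Real.sqrt (min |y.1| L))) *
          ((1 + |y.2|) ^ q * Real.exp (c * Real.sqrt (min |y.2| L))))) := by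
      refine h1.trans (le_trans (le_of_eq ?_)
        (mul_le_mul_of_nonneg_left h2 (mul_nonneg hC0.le hw0)))
      ring
    have g1 := K_bound hC (K₁ a₁) y.1 (hV₁.bd a₁ c1 c2 y.1)
    have g2 := K_bound hC (K₂ a₂) y.2 (hV₂.bd a₂ c3 c4 y.2)
    have hgr : 0 ≤ grow L ε q v := by
      unfold grow
      have := abs_nonneg v
      positivity
    have h4 := mul_le_mul_of_nonneg_left h3
      (show 0 ≤ ‖K₁ a₁ y.1‖ * ‖K₂ a₂ y.2‖ by positivity)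
    refine h4.trans ?_
    have h5 : ‖K₁ a₁ y.1‖ * ‖K₂ a₂ y.2‖ * (C0 * w1 S r *
        (grow L ε q v * (((1 + |y.1|) ^ q * Real.exp (c * Real.sqrt (min |y.1| L))) *
          ((1 + |y.2|) ^ q * Real.exp (c * Real.sqrt (min |y.2| L)))))) =
        (C0 * w1 S r * grow L ε q v) *
        ((‖K₁ a₁ y.1‖ * ((1 + |y.1|) ^ q * Real.exp (c * Real.sqrt (min |y.1| L)))) *
         (‖K₂ a₂ y.2‖ * ((1 + |y.2|) ^ q * Real.exp (c * Real.sqrt (min |y.2| L))))) := by ring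
    rw [h5, hbd]
    refine mul_le_mul_of_nonneg_left ?_ (mul_nonneg (mul_nonneg hC0.le hw0) hgr)
    exact mul_le_mul g1 g2 (by positivity) (by positivity)
  have hw := w1_le hi₁ hi₂ L s x v P S Q cc r hcm bd hbi hpt
  rw [hbv] at hw
  have hgr : 0 ≤ grow L ε q v := by
    unfold grow
    have := abs_nonneg v
    positivity
  have hmass : (∫ y, ‖K₁ a₁ y‖) * (∫ y, ‖K₂ a₂ y‖) ≤ (C * Real.pi) ^ 2 := by
    rw [sq]
    exact mul_le_mul hm₁ hm₂ (integral_nonneg fun _ => norm_nonneg _) (by positivity)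
  have hw2 : w1 Q (cv P S cc r) ≤ (C * Real.pi) ^ 2 *
      ((C0 * w1 S r * grow L ε q v) * (C * Real.pi) ^ 2) := by
    refine hw.trans (mul_le_mul_of_nonneg_right hmass ?_)
    exact mul_nonneg (mul_nonneg (mul_nonneg hC0.le hw0) hgr) (by positivity)
  have h9 : Real.sqrt (2 * Real.pi) * H * w1 Q (cv P S cc r) ≤ Real.sqrt (2 * Real.pi) * H *
      ((C * Real.pi) ^ 2 * ((C0 * w1 S r * grow L ε q v) * (C * Real.pi) ^ 2)) :=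
    mul_le_mul_of_nonneg_left hw2 (by positivity)
  unfold mr
  refine (mul_le_mul_of_nonneg_left h9 (by norm_num)).trans (le_of_eq ?_)
  ring

end Run7.h311.MO
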