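import Pool.Agent.Run7.h311.MO.Sqf
import Pool.Agent.Run7.h311.EX.Set1

/-! # The mean value of the weights: powers of partial sums and of mollifiers -/

set_option autoImplicit false

open Filter Topology
open scoped BigOperators

namespace Run7.h311.MO

open Pool.Agent.N802 Pool.Agent.N802.U Pool.Agent.N802.WD Pool.Agent.N802.WD.Msd
open Run7.h311.EX

lemma dn_prod {P : Finset ℕ} (hP : ∀ p ∈ P, p.Prime) {X y : ℝ} {V : ℝ → ℝ}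
    (hXy : Real.log X ≤ y) (hV : ∀ x, x ≤ y → V x = 1) :
    ∀ B ⊆ P, ((∏ p ∈ B, p : ℕ) : ℝ) ≤ X → dn V (1 / 2) 0 (∏ p ∈ B, p) =
        (((1 : ℝ) ^ B.card / Real.sqrt ((∏ p ∈ B, p : ℕ) : ℝ) : ℝ) : ℂ) := by
  intro B hB hX
  have h1 := Run7.h311.EX.prod_pos hP hB
  have h3 : (0 : ℝ) < ((∏ p ∈ B, p : ℕ) : ℝ) := by exact_mod_cast h1
  unfold dn
  rw [hV _ ((Real.log_le_log h3 hX).trans hXy), cexp_sqrt h1, one_pow]
  simp

lemma bn_prod {P : Finset ℕ} (hP : ∀ p ∈ P, p.Prime) {X y : ℝ} {V : ℝ → ℝ}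
    (hXy : Real.log X ≤ y) (hV : ∀ x, x ≤ y → V x = 1) :
    ∀ B ⊆ P, ((∏ p ∈ B, p : ℕ) : ℝ) ≤ X → bn V (1 / 2) 0 (∏ p ∈ B, p) =
        (((-1 : ℝ) ^ B.card / Real.sqrt ((∏ p ∈ B, p : ℕ) : ℝ) : ℝ) : ℂ) := by
  intro B hB hX
  have h2 := dn_prod hP hXy hV B hB hX
  have h3 : ArithmeticFunction.moebius (∏ p ∈ B, p) = (-1) ^ B.card := by
    rw [ArithmeticFunction.isMultiplicative_moebius.map_prod_of_prime B
      (fun p hp => hP p (hB hp)), ← Finset.prod_const]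
    exact Finset.prod_congr rfl fun p hp => ArithmeticFunction.moebius_apply_prime (hP p (hB hp))
  unfold bn
  rw [h2, h3]
  push_cast
  ring

/-- **the mean value of the weights** -/
theorem wt_low {α₁ α₂ : ℝ} (h1 : 0 < α₁) (h12 : α₁ < α₂) (k : ℕ) : ∃ c T0 : ℝ, 0 < c ∧ 1 < T0 ∧
    ∀ T : ℝ, T0 ≤ T → ∀ V : ℝ → ℝ, (∀ x, x ≤ α₁ * Real.log T → V x = 1) →
    c * Real.log T ^ ((k + 1) ^ 2) ≤
      w1 (Finset.Icc 1 (⌊T ^ α₂⌋₊ ^ (k + 1))) (pw ⌊T ^ α₂⌋₊ (dn V (1 / 2) 0) k) ∧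
    c * Real.log T ^ ((k + 1) ^ 2) ≤
      w1 (Finset.Icc 1 (⌊T ^ α₂⌋₊ ^ (k + 1))) (pw ⌊T ^ α₂⌋₊ (bn V (1 / 2) 0) k) := by
  obtain ⟨c, T0, hc, hT0, h⟩ := sqf_lower (κ := ((k : ℝ) + 1) ^ 2) (α := α₁) (by positivity) h1
  obtain ⟨T1, hT1⟩ := eventually_atTop.1
    ((tendsto_rpow_atTop (sub_pos.2 h12)).eventually_ge_atTop 2)
  refine ⟨c, max T0 T1, hc, lt_max_of_lt_left hT0, fun T hT V hV => ?_⟩
  have hTT0 : T0 ≤ T := (le_max_left _ _).trans hT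
  have hTT1 := hT1 T ((le_max_right _ _).trans hT)
  have hTp : 0 < T := by linarith
  have hT1' : 1 ≤ T := by linarith
  obtain ⟨P, hP, hlow⟩ := h T hTT0
  have hXM : T ^ α₁ ≤ (⌊T ^ α₂⌋₊ : ℝ) := by
    have h3 : T ^ α₁ * 2 ≤ T ^ α₂ := by
      calc T ^ α₁ * 2 ≤ T ^ α₁ * T ^ (α₂ - α₁) := by gcongr
        _ = T ^ α₂ := by
            rw [← Real.rpow_add hTp]
            congr 1
            ring
    have h4 := Nat.lt_floor_add_one (T ^ α₂)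
    have h5 : 1 ≤ T ^ α₁ := Real.one_le_rpow hT1' h1.le
    linarith
  have hXy : Real.log (T ^ α₁) ≤ α₁ * Real.log T := (Real.log_rpow hTp α₁).le
  have e : Real.log T ^ (((k : ℝ) + 1) ^ 2) = Real.log T ^ ((k + 1) ^ 2) := by
    rw [← Real.rpow_natCast (Real.log T) ((k + 1) ^ 2)]
    push_cast
    rfl
  rw [e] at hlow
  exact ⟨hlow.trans (w1_pw (s := 1) (by norm_num) hP hXM (dn_prod hP hXy hV) k),
    hlow.trans (w1_pw (s := -1) (by norm_num) hP hXM (bn_prod hP hXy hV) k)⟩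

/-- the length of the power -/
lemma len_pw {T α μ : ℝ} {k : ℕ} (hT : 1 ≤ T) (h : α * (k + 1) ≤ μ) :
    Len (Finset.Icc 1 (⌊T ^ α⌋₊ ^ (k + 1))) (T ^ μ) := by
  intro n hn
  rw [Finset.mem_Icc] at hn
  refine ⟨hn.1, ?_⟩
  have hTp : 0 < T := by linarith
  calc (n : ℝ) ≤ ((⌊T ^ α⌋₊ ^ (k + 1) : ℕ) : ℝ) := by exact_mod_cast hn.2
    _ = (⌊T ^ α⌋₊ : ℝ) ^ (k + 1) := by push_cast; rfl
    _ ≤ (T ^ α) ^ (k + 1) := by
        gcongr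
        exact Nat.floor_le (by positivity)
    _ = T ^ (α * (k + 1)) := by
        rw [← Real.rpow_natCast, ← Real.rpow_mul hTp.le]
        push_cast
        rfl
    _ ≤ T ^ μ := Real.rpow_le_rpow_of_exponent_le hT h

end Run7.h311.MO
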