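import Pool.Agent.Run7.h311.MO.CoreG
import Pool.Agent.Run7.h311.MO.Wt
import Pool.Agent.Run7.h311.MO.Msd
import Pool.Agent.Run7.h311.MO.Right
import Pool.Agent.Run7.h311.EX.Ext

/-! # Positive moments of the derivative at isolated simple zeros -/

set_option autoImplicit false

open Complex Filter Topology Set MeasureTheory
open scoped BigOperators ComplexConjugate

namespace Run7.h311.MO

open Pool.Agent.N802 Pool.Agent.N802.U Pool.Agent.N802.WD Pool.Agent.N802.WD.Msd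
open Run7.h311.EX
open Pool.Agent.R399.TW (pt pt_re pt_im pt_cont)

/-- **positive moments** -/
theorem posmom {d0 δf Tf : ℝ} (hd0 : 0 < d0) (hd1 : d0 ≤ 1 / 10) (hδf : 0 < δf)
    (hF : FrameP d0 δf Tf) (k : ℕ) :
    ∃ c T0 : ℝ, 0 < c ∧ ∀ T : ℝ, T0 ≤ T → ∃ G : Finset ℂ, (∀ s ∈ G, Iz d0 T s) ∧
    c * (T * Real.log T ^ ((k + 2) ^ 2)) ≤ ∑ s ∈ G, (‖deriv riemannZeta s‖ ^ 2) ^ (k + 1) := by
  obtain ⟨q, Co, hCo, hq⟩ := msdc
  obtain ⟨κ, ε, δr, hκ, hε, hδr, hδr32, hδrε, hX⟩ := rightC hCo hq ker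
  obtain ⟨C₀, C, Tr, hC₀, hC, hTr, hXr⟩ := hX (1 / 10) (1 / 5) (by norm_num) (by norm_num) le_rfl
  obtain ⟨μ, hμ⟩ : ∃ μ : ℝ, μ = min δf δr := ⟨_, rfl⟩
  have hμ0 : 0 < μ := by rw [hμ]; exact lt_min hδf hδr
  have hμf : μ ≤ δf := by rw [hμ]; exact min_le_left _ _
  have hμr : μ ≤ δr := by rw [hμ]; exact min_le_right _ _
  have hμ32 : μ ≤ 1 / 32 := hμr.trans hδr32
  have hk1 : (0 : ℝ) < (k : ℝ) + 1 := by positivity
  obtain ⟨α, hα⟩ : ∃ α : ℝ, α = μ / ((k : ℝ) + 1) := ⟨_, rfl⟩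
  have hα0 : 0 < α := by rw [hα]; positivity
  have hαμ : α ≤ μ := by
    rw [hα]
    exact div_le_self hμ0.le (by linarith [(Nat.cast_nonneg k : (0 : ℝ) ≤ k)])
  have hαk : α * ((k : ℝ) + 1) ≤ μ := by
    rw [hα]
    exact (div_mul_cancel₀ μ hk1.ne').le
  obtain ⟨C₁, hC₁, hcut1⟩ := cutc (α / 2) α (2 * κ + 1) (q + 4) ε (by positivity) (by linarith)
    (by linarith) hε
  have hsq : Co * Real.sqrt μ ≤ min ε ε := by
    rw [min_self]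
    refine le_trans ?_ hδrε
    exact mul_le_mul_of_nonneg_left (Real.sqrt_le_sqrt hμr) hCo.le
  obtain ⟨a, Tm, ha, hTm, hm⟩ := hq (α / 2) α (1 / 10) (1 / 5) κ ε (max C₀ C₁) ε μ
    (by positivity) (by linarith) (by norm_num) (by norm_num) hκ hε (lt_max_of_lt_left hC₀) hε
    hμ0 hsq (by linarith)
  obtain ⟨cw, Tw, hcw, hTw, hwt⟩ := wt_low (α₁ := α / 2) (α₂ := α) (by positivity) (by linarith) k
  obtain ⟨Tq, hTq⟩ := ev_quarter hμ0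
  obtain ⟨C₂, hC₂⟩ : ∃ C₂ : ℝ, C₂ = 6 / d0 * (C * Real.exp 3) := ⟨_, rfl⟩
  have hC₂0 : 0 < C₂ := by rw [hC₂]; positivity
  obtain ⟨Cs, L0, hCs, hL0, hcore⟩ := large_coreG hd0 hd1 (β := 1 / 10) (by norm_num)
    (by norm_num) hC₂0
  obtain ⟨X, hXd⟩ : ∃ X : ℝ, X = a * (2 ^ q * Real.exp (ε + 2)) := ⟨_, rfl⟩
  have hX0 : 0 < X := by rw [hXd]; positivity
  obtain ⟨Θ, hΘ⟩ : ∃ Θ : ℝ, Θ = 6 / d0 * X := ⟨_, rfl⟩
  have hΘ0 : 0 < Θ := by rw [hΘ]; positivity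
  refine ⟨cw / 120 / (Cs * Θ) ^ (k + 1), max (max (max Tf Tr) (max Tm Tw)) (max (max Tq 100)
    (Real.exp (max L0 120))), by positivity, fun T hT => ?_⟩
  have hT1 := (le_max_left _ _).trans hT
  have hT2 := (le_max_right _ _).trans hT
  have hTTf : Tf ≤ T := ((le_max_left _ _).trans (le_max_left _ _)).trans hT1
  have hTTr : Tr ≤ T := ((le_max_right _ _).trans (le_max_left _ _)).trans hT1
  have hTTm : Tm ≤ T := ((le_max_left _ _).trans (le_max_right _ _)).trans hT1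
  have hTTw : Tw ≤ T := ((le_max_right _ _).trans (le_max_right _ _)).trans hT1
  have hTTq : Tq ≤ T := ((le_max_left _ _).trans (le_max_left _ _)).trans hT2
  have hT100 : 100 ≤ T := ((le_max_right _ _).trans (le_max_left _ _)).trans hT2
  have hTTe : Real.exp (max L0 120) ≤ T := (le_max_right _ _).trans hT2
  have hTp : 0 < T := by linarith
  have hT1' : 1 ≤ T := by linarith
  obtain ⟨L, hL⟩ : ∃ L : ℝ, L = Real.log T := ⟨_, rfl⟩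
  have hLb : max L0 120 ≤ L := by
    rw [hL, Real.le_log_iff_exp_le hTp]
    exact hTTe
  have hLL0 : L0 ≤ L := (le_max_left _ _).trans hLb
  have hL120 : 120 ≤ L := (le_max_right _ _).trans hLb
  have hLp : 0 < L := by linarith
  obtain ⟨V, Kv, hcf, hR⟩ := hXr T hTTr
  obtain ⟨V₁, K₁, hcf1⟩ := hcut1 (Real.log T) (by rw [← hL]; linarith)
  have hcf' := BootN.cutf_mono hcf (le_refl ε) (le_max_left C₀ C₁) hC₀.le
  have hcf1' := BootN.cutf_mono hcf1 (le_refl ε) (le_max_right C₀ C₁) hC₁.le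
  have hmT := hm T hTTm V₁ V K₁ Kv hcf1' hcf'
  obtain ⟨hq4, Z, hiz, hpts, hZ⟩ := hF T hTTf
  have hδq := hTq T hTTq
  -- the weight
  obtain ⟨hw1, -⟩ := hwt T hTTw V₁ hcf1.one
  have hQlen : Len (Finset.Icc 1 (⌊T ^ α⌋₊ ^ (k + 1))) (T ^ μ) := len_pw hT1' hαk
  set N := ⌊T ^ α⌋₊ with hN
  set Q := Finset.Icc 1 (N ^ (k + 1)) with hQ
  set r' := pw N (dn V₁ (1 / 2) 0) k with hr'
  set M := Mp V ⌊T ^ (1 / 5 : ℝ)⌋₊ with hM
  have hMd : Differentiable ℂ M := WD.Mp_diff V _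
  rw [← hL] at hw1
  obtain ⟨W, hW⟩ : ∃ W : ℝ, W = T * L * w1 Q r' := ⟨_, rfl⟩
  have hWlow : T * L * (cw * L ^ ((k + 1) ^ 2)) ≤ W := by rw [hW]; gcongr
  have hWp : 0 < W := lt_of_lt_of_le (by positivity) hWlow
  have hfr := hZ Q (Len_mono hQlen (Real.rpow_le_rpow_of_exponent_le hT1' hμf)) r'
  have hRPQ : ∀ s ∈ Z, ‖RP Q r' s.im‖ ^ 2 = (‖Dp V₁ N s‖ ^ 2) ^ (k + 1) := by
    intro s hs
    rw [hQ, hr', pw_RP, norm_pow, ← pow_mul, mul_comm (k + 1) 2, pow_mul]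
    congr 3
    have h1 := Dp_eq V₁ N (1 / 2) 0 s.im
    rw [← h1, add_zero]
    congr 1
    apply Complex.ext
    · rw [pt_re, (hiz s hs).re]
    · rw [pt_im]
  have hρ1 : d0 / (4 * L) ≤ 1 / (8 * L) := by
    rw [div_le_div_iff₀ (by positivity) (by positivity)]
    nlinarith
  have hpts' : Pts T (d0 / (4 * L)) Z := by rw [hL]; exact hpts
  have hsm : ∀ z : ℂ, ‖z‖ ≤ d0 / (4 * L) →
      ∑ s ∈ Z, ‖RP Q r' s.im‖ ^ 2 * ‖Dp V₁ N s‖ ^ 2 * ‖M (s + z)‖ ^ 2 ≤ Θ * W := by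
    intro z hz
    have h1 := dm_sum (T := T) (L := L) (a := a) (δ := μ) (ε := ε) (κ := κ) (α₂ := α)
      (β₂ := 1 / 5) (q := q) (V₁ := V₁) (V₂ := V) hT100 hL (by linarith) ha.le hε.le hκ
      (fun x => ⟨hcf1.nn x, hcf1.le x⟩) (fun x => ⟨hcf.nn x, hcf.le x⟩)
      hmT hQlen (by linarith) hδq r' (by positivity : 0 < d0 / (4 * L)) hρ1 hpts' (v := z)
      (hz.trans hρ1)
    have h2 : ∑ s ∈ Z, ‖RP Q r' s.im‖ ^ 2 * ‖Dp V₁ N s‖ ^ 2 * ‖M (s + z)‖ ^ 2 =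
        ∑ s ∈ Z, ‖RP Q r' s.im‖ ^ 2 * ‖Dp V₁ N s * M (s + z)‖ ^ 2 := by
      refine Finset.sum_congr rfl fun s hs => ?_
      rw [norm_mul, mul_pow]
      ring
    rw [h2]
    refine h1.trans ?_
    rw [← hXd]
    refine (const_le hTp.le hLp hd0 hX0.le Q r').trans ?_
    rw [hΘ, hW]
  have hrt : ∀ v : ℂ, -(3 / (8 * L)) ≤ v.re → v.re ≤ 20 → |v.im| ≤ 20 →
      ∑ s ∈ Z, ‖RP Q r' s.im‖ ^ 2 * ‖riemannZeta (s + v) * M (s + v) - 1‖ ^ 2 ≤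
        C₂ * Real.exp (-(1 / 10 * L * v.re)) * W := by
    intro v hv1 hv2 hv3
    have h1 := moll_sum (T := T) (L := L) (C := C) (δ := μ) (β₁ := 1 / 10) (β₂ := 1 / 5) (V := V)
      hT100 hL (by linarith) hC.le (by norm_num) (by norm_num)
      (fun S hS r τ H hH => hR S (Len_mono hS (Real.rpow_le_rpow_of_exponent_le hT1' hμr)) r τ H
        ((Real.rpow_le_rpow_of_exponent_le hT1' (by linarith)).trans hH))
      hQlen (by linarith) hδq r' (by positivity : 0 < d0 / (4 * L)) hρ1 hpts' hv1 hv2 hv3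
    refine h1.trans ?_
    refine (const_le hTp.le hLp hd0 (by positivity) Q r').trans (le_of_eq ?_)
    rw [hC₂, hW]
    ring
  have hmain := hcore T L hT100 hL hLL0 Z hiz M hMd (fun s => ‖RP Q r' s.im‖ ^ 2)
    (fun s => ‖Dp V₁ N s‖ ^ 2) (fun s _ => sq_nonneg _) (fun s _ => sq_nonneg _) W hWp.le
    (by rw [hW, hL]; exact hfr.1) (by rw [hW, hL]; exact hfr.2) Θ hΘ0 hsm hrt
  refine ⟨Z.filter (fun s => ‖Dp V₁ N s‖ ^ 2 * L ^ 2 ≤ Cs * Θ * ‖deriv riemannZeta s‖ ^ 2),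
    fun s hs => hiz s (Finset.mem_filter.1 hs).1, ?_⟩
  have hsum : L ^ (2 * (k + 1)) * (W / 120) ≤ (Cs * Θ) ^ (k + 1) *
      ∑ s ∈ Z.filter (fun s => ‖Dp V₁ N s‖ ^ 2 * L ^ 2 ≤ Cs * Θ * ‖deriv riemannZeta s‖ ^ 2),
      (‖deriv riemannZeta s‖ ^ 2) ^ (k + 1) := by
    refine (mul_le_mul_of_nonneg_left hmain (by positivity)).trans ?_
    rw [Finset.mul_sum, Finset.mul_sum]
    refine Finset.sum_le_sum fun s hs => ?_
    rw [Finset.mem_filter] at hs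
    rw [hRPQ s hs.1]
    calc L ^ (2 * (k + 1)) * (‖Dp V₁ N s‖ ^ 2) ^ (k + 1) =
        (‖Dp V₁ N s‖ ^ 2 * L ^ 2) ^ (k + 1) := by
          rw [mul_pow, pow_mul]
          ring
      _ ≤ (Cs * Θ * ‖deriv riemannZeta s‖ ^ 2) ^ (k + 1) := pow_le_pow_left₀ (by positivity) hs.2 _
      _ = _ := by rw [mul_pow]
  have hCT : 0 < (Cs * Θ) ^ (k + 1) := by positivity
  rw [← hL]
  have h3 : cw / 120 * (T * L ^ ((k + 2) ^ 2)) ≤ L ^ (2 * (k + 1)) * (W / 120) := by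
    calc cw / 120 * (T * L ^ ((k + 2) ^ 2)) =
        L ^ (2 * (k + 1)) * (T * L * (cw * L ^ ((k + 1) ^ 2)) / 120) := by
          have e1 : (k + 2) ^ 2 = 2 * (k + 1) + 1 + (k + 1) ^ 2 := by ring
          rw [e1, pow_add, pow_add, pow_one]
          ring
      _ ≤ _ := by gcongr
  rw [div_mul_eq_mul_div, div_le_iff₀ hCT]
  linarith

end Run7.h311.MO
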