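import Pool.Agent.N802.WD.Cut

/-!
# Smooth cutoffs with fast decaying Mellin kernels

As `Pool.Agent.N802.WD.cut`, with an arbitrary constant in the exponential decay.
-/

set_option autoImplicit false

open Complex Filter Topology Set MeasureTheory

namespace Run7.h311.MO

open Pool.Agent.N802.WD Pool.Agent.N802.WD.CutA

lemma sum_32_le (N : ℕ) : ∑ j ∈ Finset.range N, 1 / ((j : ℝ) + 1) ^ (3 / 2 : ℝ) ≤ 3 := by
  have key : ∀ N : ℕ, ∑ j ∈ Finset.range (N + 1), 1 / ((j : ℝ) + 1) ^ (3 / 2 : ℝ) ≤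
      3 - 2 / Real.sqrt ((N : ℝ) + 1) := by
    intro N
    induction N with
    | zero => norm_num
    | succ N ih =>
      rw [Finset.sum_range_succ]
      push_cast
      have hN : (0 : ℝ) ≤ N := Nat.cast_nonneg N
      set x : ℝ := (N : ℝ) + 1 with hx
      have hx1 : 1 ≤ x := by rw [hx]; linarith
      have hx0 : 0 < x := by linarith
      set a := Real.sqrt x with ha
      set b := Real.sqrt (x + 1) with hb
      have ha0 : 0 < a := Real.sqrt_pos.2 hx0
      have hb0 : 0 < b := Real.sqrt_pos.2 (by linarith)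
      have ha2 : a ^ 2 = x := Real.sq_sqrt hx0.le
      have hb2 : b ^ 2 = x + 1 := Real.sq_sqrt (by linarith)
      have hab : a ≤ b := Real.sqrt_le_sqrt (by linarith)
      have e1 : (x + 1) ^ (3 / 2 : ℝ) = b ^ 3 := by
        rw [hb, Real.sqrt_eq_rpow, ← Real.rpow_natCast, ← Real.rpow_mul (by linarith)]
        norm_num
      have h1 : 1 / (x + 1) ^ (3 / 2 : ℝ) ≤ 2 / a - 2 / b := by
        rw [e1, div_sub_div _ _ ha0.ne' hb0.ne', div_le_div_iff₀ (by positivity) (by positivity)]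
        have h2 : (b - a) * (b + a) = 1 := by nlinarith
        have h3 : 1 ≤ 2 * b * (b - a) := by nlinarith
        have h4 : a * b ≤ b ^ 2 := by nlinarith
        nlinarith [mul_le_mul_of_nonneg_right h3 (by positivity : 0 ≤ b ^ 2)]
      linarith
  cases N with
  | zero => norm_num
  | succ N =>
    have := key N
    have h2 : 0 < 2 / Real.sqrt ((N : ℝ) + 1) := by positivity
    linarith

/-- the number of factors -/
theorem count' {δ A : ℝ} (hδ : 0 < δ) (hA : 0 < A) : ∃ C : ℝ, ∀ L y : ℝ, 0 ≤ L →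
    ∃ n : ℕ, n ≤ ⌈A * Real.sqrt L⌉₊ ∧
      (∀ j, j < n → 4 ≤ δ / (6 * ((j : ℝ) + 1) ^ (3 / 2 : ℝ)) * |y|) ∧
      A * Real.sqrt (min |y| L) ≤ n + C := by
  obtain ⟨g, hg⟩ : ∃ g : ℝ, g = (24 / δ) ^ (2 / 3 : ℝ) := ⟨_, rfl⟩
  have hg0 : 0 < g := by rw [hg]; positivity
  refine ⟨1 + A * (A * g) ^ 3, fun L y hL => ?_⟩
  have hy : 0 ≤ |y| := abs_nonneg y
  set q : ℝ := (δ * |y| / 24) ^ (2 / 3 : ℝ) with hq
  have hq0 : 0 ≤ q := by positivity
  have hq32 : q ^ (3 / 2 : ℝ) = δ * |y| / 24 := by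
    rw [hq, ← Real.rpow_mul (by positivity)]
    norm_num
  refine ⟨min ⌈A * Real.sqrt L⌉₊ ⌊q⌋₊, min_le_left _ _, ?_, ?_⟩
  · intro j hj
    have h1 : (j : ℝ) + 1 ≤ q := by
      have h2 : j + 1 ≤ ⌊q⌋₊ := by
        have := lt_of_lt_of_le hj (min_le_right _ _)
        omega
      have h3 : ((j + 1 : ℕ) : ℝ) ≤ q := (Nat.le_floor_iff hq0).1 h2
      push_cast at h3
      exact h3
    have h2 : ((j : ℝ) + 1) ^ (3 / 2 : ℝ) ≤ δ * |y| / 24 := by
      rw [← hq32]
      exact Real.rpow_le_rpow (by positivity) h1 (by norm_num)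
    rw [div_mul_eq_mul_div, le_div_iff₀ (by positivity)]
    linarith
  · set n : ℕ := min ⌈A * Real.sqrt L⌉₊ ⌊q⌋₊ with hn
    have hC0 : 0 ≤ A * (A * g) ^ 3 := by positivity
    have h2 : A * Real.sqrt (min |y| L) ≤ A * Real.sqrt L := by
      gcongr
      exact min_le_right _ _
    have h3 : A * Real.sqrt (min |y| L) ≤ q + A * (A * g) ^ 3 := by
      have h4 : A * Real.sqrt (min |y| L) ≤ A * Real.sqrt |y| := by
        gcongr
        exact min_le_left _ _
      refine h4.trans ?_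
      rcases le_total (Real.sqrt |y|) ((A * g) ^ 3) with h5 | h5
      · have := mul_le_mul_of_nonneg_left h5 hA.le
        linarith
      · -- `|y| ^ (1/6) ≥ A g`
        have h6 : A * g ≤ |y| ^ (1 / 6 : ℝ) := by
          have h7 : Real.sqrt |y| = (|y| ^ (1 / 6 : ℝ)) ^ 3 := by
            rw [Real.sqrt_eq_rpow, ← Real.rpow_natCast, ← Real.rpow_mul hy]
            norm_num
          rw [h7] at h5
          exact le_of_pow_le_pow_left₀ (by norm_num) (by positivity) h5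
        have h8 : A * Real.sqrt |y| ≤ q := by
          have e1 : q = g⁻¹ * (|y| ^ (1 / 6 : ℝ) * Real.sqrt |y|) := by
            have e2 : |y| ^ (1 / 6 : ℝ) * Real.sqrt |y| = |y| ^ (2 / 3 : ℝ) := by
              rw [Real.sqrt_eq_rpow, ← Real.rpow_add_of_nonneg hy (by norm_num) (by norm_num)]
              norm_num
            have e3 : δ * |y| / 24 = (24 / δ)⁻¹ * |y| := by
              rw [inv_div]
              ring
            rw [hq, e2, hg, e3, Real.mul_rpow (by positivity) hy, Real.inv_rpow (by positivity)]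
          rw [e1]
          have h9 : A ≤ g⁻¹ * |y| ^ (1 / 6 : ℝ) := by
            rw [inv_mul_eq_div, le_div_iff₀ hg0]
            exact h6
          calc A * Real.sqrt |y| ≤ (g⁻¹ * |y| ^ (1 / 6 : ℝ)) * Real.sqrt |y| := by gcongr
            _ = _ := by ring
        linarith
    rcases min_choice ⌈A * Real.sqrt L⌉₊ ⌊q⌋₊ with h4 | h4
    · rw [hn, h4]
      have := Nat.le_ceil (A * Real.sqrt L)
      linarith
    · rw [hn, h4]
      have := Nat.lt_floor_add_one q
      linarith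

/-- **cutoffs with an arbitrary constant in the decay** -/
theorem cutc (β₁ β₂ a₀ : ℝ) (B : ℕ) (c : ℝ) (hβ₁ : 0 < β₁) (hβ : β₁ < β₂) (ha₀ : 1 ≤ a₀)
    (hc : 0 < c) : ∃ C : ℝ, 0 < C ∧ ∀ L : ℝ, 1 ≤ L → ∃ (V : ℝ → ℝ) (K : ℝ → ℝ → ℂ),
    Cutf L β₁ β₂ a₀ B c C V K := by
  set δ : ℝ := β₂ - β₁ with hδd
  have hδ : 0 < δ := by rw [hδd]; linarith
  set l : ℝ := δ / (4 * (B + 1)) with hl
  have hl0 : 0 < l := by positivity
  set κ : ℕ → ℝ := fun j => δ / (6 * ((j : ℝ) + 1) ^ (3 / 2 : ℝ)) with hκd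
  have hκ : ∀ j, 0 < κ j := fun j => by rw [hκd]; positivity
  have hsum : ∀ N, ∑ j ∈ Finset.range N, κ j ≤ δ / 2 := by
    intro N
    have h1 := sum_32_le N
    have e : ∑ j ∈ Finset.range N, κ j =
        δ / 6 * ∑ j ∈ Finset.range N, 1 / ((j : ℝ) + 1) ^ (3 / 2 : ℝ) := by
      rw [Finset.mul_sum]
      refine Finset.sum_congr rfl fun j _ => ?_
      rw [hκd]
      field_simp
    rw [e]
    nlinarith
  obtain ⟨C₀, hC₀, hker⟩ := ker0_bound (a₀ := a₀) hβ₁ hl0 B
  have hlog : 0 < Real.log 2 := Real.log_pos (by norm_num)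
  obtain ⟨A, hA⟩ : ∃ A : ℝ, A = c / Real.log 2 := ⟨_, rfl⟩
  have hA0 : 0 < A := by rw [hA]; positivity
  obtain ⟨Cc, hcount⟩ := count' hδ hA0
  refine ⟨C₀ * (Real.exp (a₀ * (δ / 2)) * Real.exp (Real.log 2 * Cc)), by positivity, ?_⟩
  intro L hL
  have hL0 : 0 < L := by linarith
  obtain ⟨V, hV⟩ := st_all (D := β₁) (a₀ := a₀) hl0 B hκ ⌈A * Real.sqrt L⌉₊
  refine ⟨fun x => V (x / L), KJ β₁ l B κ ⌈A * Real.sqrt L⌉₊, ?_, ?_, ?_, ?_, ?_, ?_, ?_⟩
  · exact fun x => hV.nn _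
  · exact fun x => hV.le _
  · intro x hx
    apply hV.one
    rw [div_le_iff₀ hL0]
    exact hx
  · intro x hx
    apply hV.zero
    have h1 : β₂ ≤ x / L := by rwa [le_div_iff₀ hL0]
    have h2 := hsum ⌈A * Real.sqrt L⌉₊
    have h3 : ((B + 1 : ℕ) : ℝ) * l = δ / 4 := by
      rw [hl]; push_cast; field_simp
    rw [h3]
    linarith
  · exact fun a ha ha' => hV.kc a ha ha'
  · intro a ha ha' y
    obtain ⟨n, hn1, hn2, hn3⟩ := hcount L y hL0.le
    have h1 := hker a ha ha' y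
    have h2 := prod_bound hκ (y := y) ha hn1 hn2
    have h3 : Real.exp (a * ∑ j ∈ Finset.range ⌈A * Real.sqrt L⌉₊, κ j) ≤
        Real.exp (a₀ * (δ / 2)) := by
      apply Real.exp_le_exp.2
      have h4 := hsum ⌈A * Real.sqrt L⌉₊
      have h5 : 0 ≤ ∑ j ∈ Finset.range ⌈A * Real.sqrt L⌉₊, κ j :=
        Finset.sum_nonneg fun j _ => (hκ j).le
      exact mul_le_mul ha' h4 h5 (by linarith)
    have h6 : ((1 : ℝ) / 2) ^ n ≤
        Real.exp (Real.log 2 * Cc) * Real.exp (-(c * Real.sqrt (min |y| L))) := by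
      have h7 : ((1 : ℝ) / 2) ^ n = Real.exp (-(Real.log 2 * n)) := by
        rw [Real.exp_neg, mul_comm, Real.exp_nat_mul, Real.exp_log (by norm_num), one_div, inv_pow]
      rw [h7, ← Real.exp_add]
      apply Real.exp_le_exp.2
      have h8 := mul_le_mul_of_nonneg_left hn3 hlog.le
      have h9 : Real.log 2 * (A * Real.sqrt (min |y| L)) = c * Real.sqrt (min |y| L) := by
        rw [hA]
        field_simp
      rw [h9] at h8
      linarith
    unfold KJ
    rw [norm_mul]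
    calc ‖(1 / (2 * Real.pi) : ℂ) * Pool.Agent.H448R2.GC.ker (B + 1) l β₁ a y‖ *
          ‖∏ j ∈ Finset.range ⌈A * Real.sqrt L⌉₊, Pool.Agent.H448R2.GC.K2.J (κ j)
            ((a : ℂ) + (y : ℂ) * I)‖
        ≤ (C₀ * ((1 + |y|) ^ B)⁻¹) * (Real.exp (a₀ * (δ / 2)) *
          (Real.exp (Real.log 2 * Cc) * Real.exp (-(c * Real.sqrt (min |y| L))))) := by
          refine mul_le_mul h1 (h2.trans ?_) (norm_nonneg _) (by positivity)
          exact mul_le_mul h3 h6 (by positivity) (by positivity)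
      _ = _ := by ring
  · intro a ha ha' x
    have h1 := hV.rep a ha ha' (x / L)
    rw [h1]
    congr 1
    funext y
    congr 2
    push_cast
    ring

end Run7.h311.MO
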