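import Pool.Agent.N802.WD.Boot
import Pool.Agent.N802.WD.Right
import Pool.Agent.N802.WD.Ker
import Pool.Agent.Run7.h311.MO.Cut
import Pool.Agent.Run7.h311.MO.Msd

/-! # The mollified zeta function in weighted mean square: the length of the weight does not depend
on the length of the mollifier -/

set_option autoImplicit false

open Filter Topology Set MeasureTheory Complex
open scoped BigOperators ComplexConjugate

namespace Run7.h311.MO

open TC (om om_pos om_cont om_integrable om_le_one om_mul_integrable)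
open Pool.Agent.N802 Pool.Agent.N802.U Pool.Agent.N802.WD
open Pool.Agent.N786.D (kap kap_nn kap_cont kap_poly cB cB_nn)
open Pool.Agent.R399.TW (pt pt_re pt_im pt_cont)
open BootN

theorem bootC {q : ℕ} {Co : ℝ} (hCo : 0 < Co) (hmsd : Msdc q Co) (hker : S_ker) :
    ∃ κ ε δ : ℝ, 1 ≤ κ ∧ 0 < ε ∧ 0 < δ ∧ δ ≤ 1 / 32 ∧ Co * Real.sqrt δ ≤ ε ∧
    ∀ β₁ β₂ : ℝ, 0 < β₁ → β₁ < β₂ → β₂ ≤ 1 / 5 →
    ∃ C' C T0 : ℝ, 0 < C' ∧ 0 < C ∧ 10 ≤ T0 ∧
    ∀ T : ℝ, T0 ≤ T → ∃ (V : ℝ → ℝ) (K : ℝ → ℝ → ℂ),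
    Cutf (Real.log T) β₁ β₂ (2 * κ + 1) (q + 4) ε C' V K ∧
    ∀ S : Finset ℕ, Len S (T ^ δ) → ∀ (r : ℕ → ℂ) (τ H : ℝ), T ^ (1 - δ) ≤ H →
    ∀ x : ℝ, |x| ≤ T / 2 →
    ∫ t in T..(2 * T), rh τ H S r t *
      ‖riemannZeta (pt (1 / 2 - 1 / Real.log T) (t + x)) *
        Mp V ⌊T ^ β₂⌋₊ (pt (1 / 2 - 1 / Real.log T) (t + x))‖ ^ 2 ≤ C * mr H S r := by
  obtain ⟨A, hA1, hfe⟩ := fe_
  obtain ⟨C₀, hC₀, hgm⟩ := Pool.Agent.H448R2.GC.zeta_growth_mid
  -- the constants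
  obtain ⟨q', hq'⟩ : ∃ q' : ℕ, q' = q + 4 := ⟨_, rfl⟩
  obtain ⟨B, hB⟩ : ∃ B : ℕ, B = q' + 3 := ⟨_, rfl⟩
  obtain ⟨cb, hcb⟩ : ∃ cb : ℝ, cb = cB B (q' + 1) := ⟨_, rfl⟩
  have hcb0 : 0 ≤ cb := by rw [hcb]; exact cB_nn _ _
  obtain ⟨κ, hκ2, hκ⟩ := kappa2 (102400 * A ^ 2 * cb ^ 2) (1 / 5) (2 * q') (by norm_num)
  obtain ⟨ε, hε, hgev⟩ := hker.2 (2 * κ) (by linarith)
  obtain ⟨δ₀, hδ₀d⟩ : ∃ δ₀ : ℝ, δ₀ = min (1 / 32) ((ε / Co) ^ 2) := ⟨_, rfl⟩
  have hδ₀ : 0 < δ₀ := by rw [hδ₀d]; exact lt_min (by norm_num) (by positivity)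
  have hδ₀32 : δ₀ ≤ 1 / 32 := by rw [hδ₀d]; exact min_le_left _ _
  have hδ₀ε : Co * Real.sqrt δ₀ ≤ ε := by
    have h1 : Real.sqrt δ₀ ≤ ε / Co := by
      rw [Real.sqrt_le_left (by positivity), hδ₀d]
      exact min_le_right _ _
    rw [le_div_iff₀ hCo] at h1
    linarith
  obtain ⟨δ, hδ⟩ : ∃ δ : ℝ, δ = min δ₀ (1 / 2) := ⟨_, rfl⟩
  have hδ0 : 0 < δ := by rw [hδ]; exact lt_min hδ₀ (by norm_num)
  have hδle : δ ≤ δ₀ := by rw [hδ]; exact min_le_left _ _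
  have hδ2 : δ ≤ 1 / 2 := by rw [hδ]; exact min_le_right _ _
  refine ⟨κ, ε, δ, by linarith, hε, hδ0, hδle.trans hδ₀32,
    le_trans (by gcongr) hδ₀ε, fun β₁ β₂ hβ1 hβ12 hβ2 => ?_⟩
  obtain ⟨C₁, hC₁, hcut1⟩ := cutc (3 / 5) (7 / 10) (2 * κ + 1) (q + 4) ε (by norm_num)
    (by norm_num) (by linarith) hε
  obtain ⟨C₂, hC₂, hcut2⟩ := cutc β₁ β₂ (2 * κ + 1) (q + 4) ε hβ1
    hβ12 (by linarith) hε
  obtain ⟨a, T₀, ha, hT₀, hmsd⟩ := hmsd (3 / 5) (7 / 10) β₁ β₂ κ ε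
    (max C₁ C₂) ε δ₀ (by norm_num) (by norm_num) hβ1 hβ12
    (by linarith) hε (lt_max_of_lt_left hC₁) hε hδ₀ (by rw [min_self]; exact hδ₀ε) (by linarith)
  obtain ⟨K0, hK0⟩ : ∃ K0 : ℝ, K0 = 80 * ((1 + 2 * κ) ^ q' * cb) := ⟨_, rfl⟩
  have hK00 : 0 ≤ K0 := by rw [hK0]; positivity
  obtain ⟨c1, hc1⟩ : ∃ c1 : ℝ, c1 = 4 * A ^ 2 * Real.exp (2 * κ) := ⟨_, rfl⟩
  have hc11 : 1 ≤ c1 := by
    rw [hc1]
    exact el4 hA1 hκ2
  obtain ⟨G, hG⟩ : ∃ G : ℝ, G = 21 * C₀ ^ 2 := ⟨_, rfl⟩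
  have hG0 : 0 ≤ G := by rw [hG]; positivity
  obtain ⟨F, hF⟩ : ∃ F : ℝ, F = 2 * a + 2 * (c1 * (5 * a + G + 1)) + 2 * G := ⟨_, rfl⟩
  have hF0 : 0 ≤ F := by rw [hF]; positivity
  refine ⟨C₂, 2 * a + 2 * K0 * K0 * F, max T₀ (Real.exp (4 * κ)),
    hC₂, by positivity, hT₀.trans (le_max_left _ _), ?_⟩
  intro T hT
  have hTT₀ : T₀ ≤ T := (le_max_left _ _).trans hT
  have hT10 : 10 ≤ T := hT₀.trans hTT₀
  have hT0 : 0 < T := by linarith
  obtain ⟨L, hL⟩ : ∃ L : ℝ, L = Real.log T := ⟨_, rfl⟩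
  have hLκ : 4 * κ ≤ L := by
    rw [hL, Real.le_log_iff_exp_le hT0]
    exact (le_max_right _ _).trans hT
  have hL1 : 1 ≤ L := by linarith
  have hL0 : 0 < L := by linarith
  have hexpL : Real.exp L = T := by rw [hL, Real.exp_log hT0]
  obtain ⟨V₁, K₁, hV₁⟩ := hcut1 L hL1
  obtain ⟨V₂, K₂, hV₂⟩ := hcut2 L hL1
  have hV₁' := cutf_mono hV₁ le_rfl (le_max_left C₁ C₂) hC₁.le
  have hV₂' := cutf_mono hV₂ le_rfl (le_max_right C₁ C₂) hC₂.le
  have hb1 : ∀ x, 0 ≤ V₁ x ∧ V₁ x ≤ 1 := fun x => ⟨hV₁.nn x, hV₁.le x⟩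
  have hb2 : ∀ x, 0 ≤ V₂ x ∧ V₂ x ≤ 1 := fun x => ⟨hV₂.nn x, hV₂.le x⟩
  rw [← hL]
  refine ⟨V₂, K₂, hV₂, ?_⟩
  intro S hS r τ H hH x hx
  -- the parameters
  have hTpow : ∀ s : ℝ, 0 ≤ s → 1 ≤ T ^ s := fun s hs => Real.one_le_rpow (by linarith) hs
  have hH' : T ^ (1 - δ₀) ≤ H :=
    (Real.rpow_le_rpow_of_exponent_le (by linarith) (by linarith)).trans hH
  have hH0 : 0 < H := lt_of_lt_of_le (by positivity) hH
  have hS' : Len S (T ^ δ₀) := fun k hk => ⟨(hS k hk).1, (hS k hk).2.trans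
    (Real.rpow_le_rpow_of_exponent_le (by linarith) hδle)⟩
  obtain ⟨M, hM⟩ : ∃ M : ℕ, M = ⌊T ^ (7 / 10 : ℝ)⌋₊ := ⟨_, rfl⟩
  obtain ⟨M₂, hM₂⟩ : ∃ M₂ : ℕ, M₂ = ⌊T ^ β₂⌋₊ := ⟨_, rfl⟩
  rw [← hM₂]
  obtain ⟨m, hm⟩ : ∃ m : ℝ, m = mr H S r := ⟨_, rfl⟩
  have hw0 := w1_nonneg S r
  have hsq2 : 1 ≤ Real.sqrt (2 * Real.pi) := by
    rw [Real.one_le_sqrt]
    have := Real.pi_gt_three
    linarith
  have hm1 : T ^ (1 - δ) * w1 S r ≤ m := by
    rw [hm]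
    unfold mr
    have h1 : T ^ (1 - δ) ≤ Real.sqrt (2 * Real.pi) * H := by
      have : 1 * T ^ (1 - δ) ≤ Real.sqrt (2 * Real.pi) * H := by gcongr
      linarith
    gcongr
  have hm0 : 0 ≤ m := le_trans (by positivity) hm1
  rw [← hm]
  obtain ⟨d, hd⟩ : ∃ d : ℝ, d = κ / L := ⟨_, rfl⟩
  have hd0 : 0 < d := by rw [hd]; positivity
  have hd4 : d ≤ 1 / 4 := by rw [hd, div_le_iff₀ hL0]; linarith
  have hLd : L * d = κ := by rw [hd]; field_simp
  have hMlog : ∀ n : ℕ, M < n → 3 / 5 * L ≤ Real.log n := by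
    intro n hn
    rw [hM] at hn
    have h1 : T ^ (7 / 10 : ℝ) < n := Nat.lt_of_floor_lt hn
    have h2 := Real.log_lt_log (by positivity) h1
    rw [Real.log_rpow hT0, ← hL] at h2
    linarith
  -- the weight
  set ψ : ℝ → ℝ := fun t => ‖Mp V₂ M₂ (pt (1 / 2 - 1 / L) (t + x))‖ with hψ
  have hψc : Continuous ψ := ((BootN.Mp_diff V₂ M₂).continuous.comp
    ((pt_cont _).comp (by fun_prop))).norm
  have hLinv : 1 / L ≤ 1 / 8 := by
    rw [div_le_div_iff₀ hL0 (by norm_num)]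
    linarith
  have hLinv0 : 0 < 1 / L := by positivity
  have hψb : ∀ t, 0 ≤ ψ t ∧ ψ t ≤ M₂ := fun t => ⟨norm_nonneg _, Mp_norm hb2 M₂ (by
    rw [pt_re]; linarith)⟩
  set W : ℝ → ℝ := fun t => rh τ H S r t * ψ t ^ 2 with hW
  have hWc : Continuous W := (BootN.rh_cont τ H S r).mul (hψc.pow 2)
  have hW0 : ∀ t, 0 ≤ W t := fun t => mul_nonneg (rh_nn _ _ _ _ _) (sq_nonneg _)
  have hWm : ∀ t, W t ≤ T ^ δ * w1 S r * T := by
    intro t
    have h1 := rh_le (τ := τ) (H := H) hS (hTpow δ hδ0.le) r t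
    have h2 : ψ t ^ 2 ≤ T := by
      have h3 : (M₂ : ℝ) ≤ T ^ (1 / 5 : ℝ) := by
        rw [hM₂]
        exact (Nat.floor_le (by positivity)).trans
          (Real.rpow_le_rpow_of_exponent_le (by linarith) hβ2)
      calc ψ t ^ 2 ≤ (T ^ (1 / 5 : ℝ)) ^ 2 :=
            pow_le_pow_left₀ (hψb t).1 ((hψb t).2.trans h3) 2
        _ = T ^ (2 / 5 : ℝ) := by
            rw [← Real.rpow_natCast, ← Real.rpow_mul hT0.le]
            norm_num
        _ ≤ T ^ (1 : ℝ) := Real.rpow_le_rpow_of_exponent_le (by linarith) (by norm_num)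
        _ = T := Real.rpow_one T
    have h4 := rh_nn τ H S r t
    exact mul_le_mul h1 h2 (sq_nonneg _) (h4.trans h1)
  have hTW : T * (T ^ δ * w1 S r * T) ≤ T ^ 2 * m := by
    have h1 : T ^ δ ≤ T ^ (1 - δ) :=
      Real.rpow_le_rpow_of_exponent_le (by linarith) (by linarith)
    calc T * (T ^ δ * w1 S r * T) = T ^ 2 * (T ^ δ * w1 S r) := by ring
      _ ≤ T ^ 2 * (T ^ (1 - δ) * w1 S r) := by gcongr
      _ ≤ _ := by gcongr
  -- the growth
  set gr : ℝ → ℝ := grow L ε q' with hgr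
  have hgr1 : ∀ v, 1 ≤ gr v := fun v => grow_one hL0.le hε.le q' v
  have hgrm : ∀ v w, gr (v + w) ≤ gr v * gr w := fun v w => grow_mul hL0.le hε.le q' v w
  have hgrp : ∀ (v : ℝ) (j : ℕ), j ≤ q' → (1 + |v|) ^ j ≤ gr v := by
    intro v j hj
    rw [hgr]
    unfold grow
    have h1 : 1 ≤ Real.exp (ε * Real.sqrt (L * min 1 |v|)) := Real.one_le_exp (by positivity)
    have h2 : 1 + |v| ≤ 1 + L * |v| := el1 hL1 v
    have h3 : 1 ≤ 1 + |v| := le_add_of_nonneg_right (abs_nonneg v)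
    calc (1 + |v|) ^ j ≤ (1 + |v|) ^ q' := pow_le_pow_right₀ h3 hj
      _ ≤ (1 + L * |v|) ^ q' := by gcongr
      _ ≤ _ := le_mul_of_one_le_right (by positivity) h1
  -- the functions
  have hpt1 : ∀ c w : ℝ, c ≤ 3 / 4 → pt c w ≠ 1 := by
    intro c w hc h
    have := congrArg Complex.re h
    rw [pt_re, Complex.one_re] at this
    linarith
  have hzc : ∀ c : ℝ, c ≤ 3 / 4 → Continuous fun w => ‖riemannZeta (pt c w)‖ := by
    intro c hc
    rw [continuous_iff_continuousAt]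
    intro w
    exact (ContinuousAt.comp (differentiableAt_riemannZeta (hpt1 c w hc)).continuousAt
      (pt_cont c).continuousAt).norm
  have hDc : ∀ c : ℝ, Continuous fun w => ‖Dp V₁ M (pt c w)‖ := fun c =>
    ((Dp_diff V₁ M).continuous.comp (pt_cont c)).norm
  -- the mean squares of the Dirichlet polynomials
  have hDb : ∀ k : ℝ, |k| ≤ κ → 0 ≤ 1 / 2 + k / L → ∀ v : ℝ,
      NNw W T (2 * T) (fun t => ‖Dp V₁ M (pt (1 / 2 + k / L) (t + (x + v)))‖) ≤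
        ENNReal.ofReal (a * gr v * m) := by
    intro k hk hk0 v
    have h1 := hmsd T hTT₀ V₁ V₂ K₁ K₂ (by rw [← hL]; exact hV₁') (by rw [← hL]; exact hV₂') S hS'
      r τ H hH' k (-1) hk (by rw [abs_neg, abs_one]; linarith) x v
    rw [← hL, ← hM, ← hM₂, ← hm] at h1
    have e1 : (1 / 2 + -1 / L : ℝ) = 1 / 2 - 1 / L := by ring
    rw [e1] at h1
    have h2 : a * grow L ε q v * m ≤ a * gr v * m := by
      have := grow_mono (ε := ε) hL0.le (show q ≤ q' by omega) v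
      gcongr
    have h3 := h1.trans h2
    refine msd_NN (A := M) (B := M₂) hH0 ((hDc _).comp (by fun_prop)) hψc
      (fun t => ⟨norm_nonneg _, Dp_norm hb1 M (by rw [pt_re]; exact hk0)⟩) hψb ?_
    refine le_trans (le_of_eq ?_) h3
    refine integral_congr_ae (Eventually.of_forall fun t => ?_)
    simp only [add_assoc]
    rfl
  have eκ1 : (1 / 2 + κ / L : ℝ) = 1 / 2 + d := by rw [hd]
  have eκ2 : (1 / 2 + -κ / L : ℝ) = 1 / 2 - d := by rw [hd]; ring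
  have eκ3 : (1 / 2 + -1 / L : ℝ) = 1 / 2 - 1 / L := by ring
  have hDp1 := hDb κ (by rw [abs_of_pos (by linarith)]) (by rw [eκ1]; linarith)
  have hDm1 := hDb (-κ) (by rw [abs_neg, abs_of_pos (by linarith)]) (by rw [eκ2]; linarith)
  have hD11 := hDb (-1) (by rw [abs_neg, abs_one]; linarith) (by rw [eκ3]; linarith)
  rw [eκ1] at hDp1
  rw [eκ2] at hDm1
  rw [eκ3] at hD11
  -- kernels
  set a₀ : ℝ := 1 / 2 - d with ha₀
  set b₀ : ℝ := 1 / 2 + d with hb₀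
  set b₁ : ℝ := 1 / 2 - 1 / L with hb₁
  have hr1 : b₀ - a₀ = 2 * d := by rw [ha₀, hb₀]; ring
  have hr2 : b₁ - a₀ = d - 1 / L := by rw [ha₀, hb₁]; ring
  have hd1L : 1 / L < d := by
    rw [hd]
    gcongr
    linarith
  have hr2L : L * (d - 1 / L) = κ - 1 := by
    rw [mul_sub, hLd]
    field_simp
  obtain ⟨J, hJc, hJ⟩ := hgev L (b₀ - a₀) hL1 (by rw [hr1]; linarith) (by
    rw [hr1, hd, ← mul_div_assoc])
  obtain ⟨J', hJ'c, hJ'⟩ := hgev L (b₁ - a₀) hL1 (by rw [hr2]; linarith) (by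
    rw [hr2, le_div_iff₀ hL0, mul_comm, hr2L]; linarith)
  obtain ⟨k1, k2, k3, k4, k5, k6⟩ := kk_facts (κ := κ) (B := B) (q := q') (by omega)
    (by rw [hr1]; linarith : 0 < b₀ - a₀) (by rw [hr1]; linarith) hL1
    (by rw [hr1]; linarith) hε.le hJc hJ
  obtain ⟨l1, l2, l3, l4, l5, l6⟩ := kk_facts (κ := κ) (B := B) (q := q') (by omega)
    (by rw [hr2]; linarith : 0 < b₁ - a₀) (by rw [hr2]; linarith) hL1
    (by rw [hr2, hr2L]; linarith) hε.le hJ'c hJ'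
  rw [← hcb, ← hK0] at k4 k6 l4 l6
  have hkz := fun u => kerz hker hb1 hL1 hV₁.one hMlog (a := a₀) (b := b₀) (by linarith)
    (by linarith) (by linarith) (by linarith) (B := B) (J := J) (by omega) hJc
    (fun v => (hJ v).1) u
  have hlz := fun u => kerz hker hb1 hL1 hV₁.one hMlog (a := a₀) (b := b₁) (by linarith)
    (by linarith) (by linarith) (by linarith) (B := B) (J := J') (by omega) hJ'c
    (fun v => (hJ' v).1) u
  -- the supremum argument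
  set f : ℝ → ℝ := fun w => ‖Dp V₁ M (pt a₀ w) - riemannZeta (pt a₀ w)‖ with hf
  have hfc : Continuous f := by
    have h1 : Continuous fun w => riemannZeta (pt a₀ w) := by
      rw [continuous_iff_continuousAt]
      intro w
      exact ContinuousAt.comp (differentiableAt_riemannZeta (hpt1 a₀ w (by linarith))).continuousAt
        (pt_cont a₀).continuousAt
    exact (((Dp_diff V₁ M).continuous.comp (pt_cont a₀)).sub h1).norm
  have hff : ∀ u, f u ^ 2 ≤ 2 * ‖Dp V₁ M (pt a₀ u)‖ ^ 2 + 2 * ‖riemannZeta (pt a₀ u)‖ ^ 2 := by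
    intro u
    exact el2 (norm_nonneg _) (norm_sub_le (Dp V₁ M (pt a₀ u)) (riemannZeta (pt a₀ u)))
  have hσ2 : Real.exp (-(11 / 20 * L * (b₀ - a₀))) ^ 2 = Real.exp (-(11 / 5 * κ)) := by
    rw [← Real.exp_nat_mul, hr1, ← hLd]
    congr 1
    push_cast
    ring
  have habs := el5 hT10 hx
  have hmain := iterA (t₁ := T) (t₂ := 2 * T) hWc hW0 (Lp := fun w => ‖riemannZeta (pt b₀ w)‖)
    (Lm := fun w => ‖riemannZeta (pt a₀ w)‖) (Dq := fun w => ‖Dp V₁ M (pt b₀ w)‖)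
    (Dm := fun w => ‖Dp V₁ M (pt a₀ w)‖) (f := f) (k1 := kk B (b₀ - a₀) J) (gr := gr)
    (fun _ => norm_nonneg _) (hzc _ (by linarith)) (hzc _ (by linarith)) (hDc _)
    (fun _ => norm_nonneg _) (hDc _) hfc (fun _ => norm_nonneg _) k1 k2 k3
    (σ := Real.exp (-(11 / 20 * L * (b₀ - a₀)))) (K0 := K0) (K1 := K0) (Real.exp_pos _).le k4
    hkz hgr1 hgrm k5 k6 (a := a) (c1 := c1) (G := G) (S0 := 16 * C₀ ^ 2 * T ^ 4) (m := m)
    (x := x) ha.le hc11 hG0 (by positivity) hm0 hDp1 hDm1 hff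
    (by
      intro v
      rcases le_or_gt |v| T with hv | hv
      · have h1 := NNw_add (t₁ := T) (t₂ := 2 * T) hWc hW0
          (f := fun t => ‖riemannZeta (pt a₀ (t + (x + v)))‖)
          (g := fun t => ‖riemannZeta (pt b₀ (t + (x + v)))‖) (h := fun _ => 0) (p := c1) (q := 0)
          (by linarith) le_rfl ((hzc _ (by linarith)).comp (by fun_prop)) continuous_const (by
            intro t ht
            have h2 := fe_sq hA1 hfe hT10 hL hLd hd0 hd4 hv (habs t ht v)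
            rw [← hc1] at h2
            simp only [zero_mul, add_zero]
            exact h2)
        rw [ENNReal.ofReal_zero, zero_mul, add_zero] at h1
        exact h1.trans le_self_add
      · refine le_trans ?_ le_add_self
        have hv0 : T ≤ |v| := hv.le
        refine (triv_NN (T := T) (P := C₀ * (9 / 2 * |v|)) hW0 hWm (by
          intro t ht
          refine ⟨norm_nonneg _, ?_⟩
          have h2 := hgm (pt a₀ (t + (x + v))) (by rw [pt_re]; linarith) (by rw [pt_re]; linarith)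
          rw [pt_im] at h2
          refine h2.trans ?_
          have h3 := habs t ht v
          gcongr
          linarith)).trans (ENNReal.ofReal_le_ofReal ?_)
        have h4 : |v| ^ 4 ≤ gr v := by
          refine le_trans ?_ (hgrp v 4 (by omega))
          gcongr
          linarith
        have h5 : T ^ 2 ≤ |v| ^ 2 := pow_le_pow_left₀ hT0.le hv0 2
        calc T * (T ^ δ * w1 S r * T) * (C₀ * (9 / 2 * |v|)) ^ 2 ≤
            T ^ 2 * m * (C₀ * (9 / 2 * |v|)) ^ 2 := by gcongr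
          _ ≤ |v| ^ 2 * m * (C₀ * (9 / 2 * |v|)) ^ 2 := by gcongr
          _ = 81 / 4 * C₀ ^ 2 * |v| ^ 4 * m := by ring
          _ ≤ 21 * C₀ ^ 2 * gr v * m := by gcongr; norm_num
          _ = G * gr v * m := by rw [hG])
    (by
      intro v
      refine (triv_NN (T := T) (P := C₀ * (4 * T * (1 + |v|))) hW0 hWm (by
        intro t ht
        refine ⟨norm_nonneg _, ?_⟩
        have h2 := hgm (pt b₀ (t + (x + v))) (by rw [pt_re]; linarith) (by rw [pt_re]; linarith)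
        rw [pt_im] at h2
        refine h2.trans ?_
        have h3 := el3 hT10 (habs t ht v)
        gcongr)).trans (ENNReal.ofReal_le_ofReal ?_)
      have h4 := hgrp v 2 (by omega)
      calc T * (T ^ δ * w1 S r * T) * (C₀ * (4 * T * (1 + |v|))) ^ 2 ≤
          T ^ 2 * m * (C₀ * (4 * T * (1 + |v|))) ^ 2 := by gcongr
        _ = 16 * C₀ ^ 2 * T ^ 4 * (1 + |v|) ^ 2 * m := by ring
        _ ≤ 16 * C₀ ^ 2 * T ^ 4 * gr v * m := by gcongr)
    (by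
      rw [hσ2, hK0, hc1]
      have e1 : 4 * Real.exp (-(11 / 5 * κ)) * (80 * ((1 + 2 * κ) ^ q' * cb)) *
          (80 * ((1 + 2 * κ) ^ q' * cb)) * (4 * A ^ 2 * Real.exp (2 * κ)) =
          102400 * A ^ 2 * cb ^ 2 * ((1 + 2 * κ) ^ (2 * q') *
            (Real.exp (-(11 / 5 * κ)) * Real.exp (2 * κ))) := by
        rw [two_mul q', pow_add]
        ring
      rw [e1, ← Real.exp_add]
      have e2 : -(11 / 5 * κ) + 2 * κ = -(1 / 5 * κ) := by ring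
      rw [e2]
      exact hκ)
  obtain ⟨-, hfb⟩ := hmain
  rw [← hF] at hfb
  -- the final estimate
  have hfin := stepB (t₁ := T) (t₂ := 2 * T) hWc hW0 (Lp := fun w => ‖riemannZeta (pt b₁ w)‖)
    (Dq := fun w => ‖Dp V₁ M (pt b₁ w)‖) (f := f) (k1 := kk B (b₁ - a₀) J') (gr := gr)
    (fun _ => norm_nonneg _) (hDc _) (fun _ => norm_nonneg _) hfc (fun _ => norm_nonneg _) l1 l2 l3
    (σ := Real.exp (-(11 / 20 * L * (b₁ - a₀)))) (K0 := K0) (K1 := K0) (Real.exp_pos _).le l4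
    hlz hgr1 hgrm l5 l6 (a := a) (F := F) (m := m) (x := x) ha.le hF0 hm0 0 (hD11 0) hfb
  have hσ1 : Real.exp (-(11 / 20 * L * (b₁ - a₀))) ^ 2 ≤ 1 := by
    apply pow_le_one₀ (Real.exp_pos _).le
    rw [Real.exp_le_one_iff, neg_nonpos, hr2]
    have : 0 < d - 1 / L := by linarith
    positivity
  have hg0 : gr 0 = 1 := grow_zero q'
  rw [hg0, mul_one, add_zero] at hfin
  have hlast : ENNReal.ofReal (∫ t in Icc T (2 * T), W t * ‖riemannZeta (pt b₁ (t + x))‖ ^ 2) ≤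
      ENNReal.ofReal ((2 * a + 2 * K0 * K0 * F) * m) := by
    have hc : Continuous fun t => W t * ‖riemannZeta (pt b₁ (t + x))‖ ^ 2 :=
      hWc.mul (((hzc b₁ (by linarith)).comp (by fun_prop : Continuous fun t : ℝ => t + x)).pow 2)
    rw [ofReal_integral_eq_lintegral_ofReal hc.integrableOn_Icc
      (Eventually.of_forall fun t => mul_nonneg (hW0 t) (sq_nonneg _))]
    refine hfin.trans (ENNReal.ofReal_le_ofReal ?_)
    have h1 : 2 * Real.exp (-(11 / 20 * L * (b₁ - a₀))) ^ 2 * K0 * K0 * F ≤ 2 * 1 * K0 * K0 * F := by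
      gcongr
    have h2 : 2 * a + 2 * Real.exp (-(11 / 20 * L * (b₁ - a₀))) ^ 2 * K0 * K0 * F ≤
        2 * a + 2 * K0 * K0 * F := by linarith
    gcongr
  rw [ENNReal.ofReal_le_ofReal_iff (by positivity)] at hlast
  rw [intervalIntegral.integral_of_le (by linarith), ← integral_Icc_eq_integral_Ioc]
  refine le_trans (le_of_eq ?_) hlast
  refine integral_congr_ae (Eventually.of_forall fun t => ?_)
  show rh τ H S r t * ‖riemannZeta (pt b₁ (t + x)) * Mp V₂ M₂ (pt b₁ (t + x))‖ ^ 2 =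
    rh τ H S r t * ‖Mp V₂ M₂ (pt b₁ (t + x))‖ ^ 2 * ‖riemannZeta (pt b₁ (t + x))‖ ^ 2
  rw [norm_mul, mul_pow]
  ring

end Run7.h311.MO
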