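import Pool.Agent.Run7.h311.MO.CoreG
import Pool.Agent.Run7.h311.MO.Wt
import Pool.Agent.Run7.h311.MO.Msd
import Pool.Agent.Run7.h311.MO.Right
import Pool.Agent.Run7.h311.EX.Ext

/-! # Negative moments of the derivative at isolated simple zeros -/

set_option autoImplicit false

open Complex Filter Topology Set MeasureTheory
open scoped BigOperators ComplexConjugate

namespace Run7.h311.MO

open Pool.Agent.N802 Pool.Agent.N802.U Pool.Agent.N802.WD Pool.Agent.N802.WD.Msd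
open Run7.h311.EX
open Pool.Agent.R399.TW (pt pt_re pt_im pt_cont)

/-- **negative moments** -/
theorem negmom {d0 δf Tf : ℝ} (hd0 : 0 < d0) (hd1 : d0 ≤ 1 / 10) (hδf : 0 < δf)
    (hF : FrameP d0 δf Tf) (k : ℕ) :
    ∃ c T0 : ℝ, 0 < c ∧ ∀ T : ℝ, T0 ≤ T → ∃ G : Finset ℂ, (∀ s ∈ G, Iz d0 T s) ∧
    c * (T * Real.log T ^ (k ^ 2)) ≤ ∑ s ∈ G, ((‖deriv riemannZeta s‖ ^ 2) ^ (k + 1))⁻¹ := by
  obtain ⟨q, Co, hCo, hq⟩ := msdc
  obtain ⟨κ, ε, δr, hκ, hε, hδr, hδr32, hδrε, hX⟩ := rightC hCo hq ker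
  obtain ⟨μ, hμ⟩ : ∃ μ : ℝ, μ = min δf δr := ⟨_, rfl⟩
  have hμ0 : 0 < μ := by rw [hμ]; exact lt_min hδf hδr
  have hμf : μ ≤ δf := by rw [hμ]; exact min_le_left _ _
  have hμr : μ ≤ δr := by rw [hμ]; exact min_le_right _ _
  have hμ32 : μ ≤ 1 / 32 := hμr.trans hδr32
  have hk1 : (0 : ℝ) < (k : ℝ) + 1 := by positivity
  obtain ⟨α, hα⟩ : ∃ α : ℝ, α = μ / ((k : ℝ) + 1) := ⟨_, rfl⟩
  have hα0 : 0 < α := by rw [hα]; positivity
  have hαμ : α ≤ μ := by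
    rw [hα]
    exact div_le_self hμ0.le (by linarith [(Nat.cast_nonneg k : (0 : ℝ) ≤ k)])
  have hαk : α * ((k : ℝ) + 1) ≤ μ := by
    rw [hα]
    exact (div_mul_cancel₀ μ hk1.ne').le
  obtain ⟨C₀, C, Tr, hC₀, hC, hTr, hXr⟩ := hX (α / 2) α (by positivity) (by linarith) (by linarith)
  obtain ⟨Tmass, hTmass, hmass⟩ := rh_mass
  obtain ⟨cw, Tw, hcw, hTw, hwt⟩ := wt_low (α₁ := α / 2) (α₂ := α) (by positivity) (by linarith) k
  obtain ⟨Tq, hTq⟩ := ev_quarter hμ0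
  obtain ⟨X, hXd⟩ : ∃ X : ℝ, X = 1400 / d0 ^ 3 * ((2 * C + 4) * Real.exp 3) := ⟨_, rfl⟩
  have hX0 : 0 < X := by rw [hXd]; positivity
  refine ⟨cw / 120 / (400 * X) ^ (k + 1), max (max (max Tf Tr) (max Tmass Tw)) (max (max Tq 100)
    (Real.exp 120)), by positivity, fun T hT => ?_⟩
  have hT1 := (le_max_left _ _).trans hT
  have hT2 := (le_max_right _ _).trans hT
  have hTTf : Tf ≤ T := ((le_max_left _ _).trans (le_max_left _ _)).trans hT1
  have hTTr : Tr ≤ T := ((le_max_right _ _).trans (le_max_left _ _)).trans hT1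
  have hTTm : Tmass ≤ T := ((le_max_left _ _).trans (le_max_right _ _)).trans hT1
  have hTTw : Tw ≤ T := ((le_max_right _ _).trans (le_max_right _ _)).trans hT1
  have hTTq : Tq ≤ T := ((le_max_left _ _).trans (le_max_left _ _)).trans hT2
  have hT100 : 100 ≤ T := ((le_max_right _ _).trans (le_max_left _ _)).trans hT2
  have hTTe : Real.exp 120 ≤ T := (le_max_right _ _).trans hT2
  have hTp : 0 < T := by linarith
  have hT1' : 1 ≤ T := by linarith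
  obtain ⟨L, hL⟩ : ∃ L : ℝ, L = Real.log T := ⟨_, rfl⟩
  have hL120 : 120 ≤ L := by
    rw [hL, Real.le_log_iff_exp_le hTp]
    exact hTTe
  have hLp : 0 < L := by linarith
  obtain ⟨V, Kv, hcf, hR⟩ := hXr T hTTr
  obtain ⟨hq4, Z, hiz, hpts, hZ⟩ := hF T hTTf
  have hδq := hTq T hTTq
  -- the weight
  obtain ⟨-, hw1⟩ := hwt T hTTw V hcf.one
  have hQlen : Len (Finset.Icc 1 (⌊T ^ α⌋₊ ^ (k + 1))) (T ^ μ) := len_pw hT1' hαk
  obtain ⟨N, hN⟩ : ∃ N : ℕ, N = ⌊T ^ α⌋₊ := ⟨_, rfl⟩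
  rw [← hN] at hw1 hQlen
  set Q := Finset.Icc 1 (N ^ (k + 1)) with hQ
  set r' := pw N (bn V (1 / 2) 0) k with hr'
  rw [← hL] at hw1
  obtain ⟨W, hW⟩ : ∃ W : ℝ, W = T * L * w1 Q r' := ⟨_, rfl⟩
  have hWlow : T * L * (cw * L ^ ((k + 1) ^ 2)) ≤ W := by rw [hW]; gcongr
  have hWp : 0 < W := lt_of_lt_of_le (by positivity) hWlow
  have hfr := hZ Q (Len_mono hQlen (Real.rpow_le_rpow_of_exponent_le hT1' hμf)) r'
  have hRPQ : ∀ s ∈ Z, ‖RP Q r' s.im‖ ^ 2 = (‖Mp V N s‖ ^ 2) ^ (k + 1) := by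
    intro s hs
    rw [hQ, hr', pw_RP, norm_pow, ← pow_mul, mul_comm (k + 1) 2, pow_mul]
    congr 3
    have h1 := Mp_eq V N (1 / 2) 0 s.im
    rw [← h1, add_zero]
    congr 1
    apply Complex.ext
    · rw [pt_re, (hiz s hs).re]
    · rw [pt_im]
  have hpts' : Pts T (d0 / (4 * L)) Z := by rw [hL]; exact hpts
  have hQlen8 : Len Q (T ^ (1 / 8 : ℝ)) :=
    Len_mono hQlen (Real.rpow_le_rpow_of_exponent_le hT1' (by linarith))
  have hmassT : ∀ r : ℕ → ℂ, ∫ t in T..(2 * T), rh (11 / 8 * T) (T / 4) Q r t ≤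
      2 * mr (T / 4) Q r := by
    intro r
    rw [intervalIntegral.integral_of_le (by linarith)]
    refine (setIntegral_le_integral (rh_intg (by positivity) Q r)
      (Eventually.of_forall fun t => U.rh_nonneg _ _ _ _ t)).trans ?_
    refine hmass T hTTm Q hQlen8 r _ _ ?_
    refine le_trans ?_ hδq
    exact Real.rpow_le_rpow_of_exponent_le hT1' (by linarith)
  have hsum := small_core (T := T) (L := L) (C := C) (δ := μ) (β₁ := α / 2) (β₂ := α)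
    (d0 := d0) (V := V) hT100 hL (by linarith) hC.le (by positivity) (by linarith) hd0 hd1
    (fun S hS r τ H hH => hR S (Len_mono hS (Real.rpow_le_rpow_of_exponent_le hT1' hμr)) r τ H
        ((Real.rpow_le_rpow_of_exponent_le hT1' (by linarith)).trans hH))
    hQlen (by linarith) hδq r' hmassT hpts' (fun s hs => (hiz s hs).zero)
  rw [← hXd, ← hN] at hsum
  obtain ⟨A, hA⟩ : ∃ A : ℝ, A = 400 * X * L ^ 2 := ⟨_, rfl⟩
  have hA0 : 0 < A := by rw [hA]; positivity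
  have hbad : ∑ s ∈ Z.filter (fun s => A < ‖Mp V N s‖ ^ 2 * ‖deriv riemannZeta s‖ ^ 2),
      ‖RP Q r' s.im‖ ^ 2 ≤ W / 400 := by
    refine sel (w := fun s => ‖RP Q r' s.im‖ ^ 2)
      (f := fun s => ‖Mp V N s‖ ^ 2 * ‖deriv riemannZeta s‖ ^ 2)
      (fun s _ => sq_nonneg _) (fun s _ => by positivity) hA0
      (Y := X * L ^ 2 * (T * L * w1 Q r')) hsum ?_
    rw [hA, ← hW]
    exact le_of_eq (by ring)
  have hmain : W / 120 ≤
      ∑ s ∈ Z.filter (fun s => ¬ A < ‖Mp V N s‖ ^ 2 * ‖deriv riemannZeta s‖ ^ 2),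
      ‖RP Q r' s.im‖ ^ 2 := by
    have h1 := Finset.sum_filter_add_sum_filter_not Z
      (fun s => A < ‖Mp V N s‖ ^ 2 * ‖deriv riemannZeta s‖ ^ 2) (fun s => ‖RP Q r' s.im‖ ^ 2)
    have h2 : W / 60 ≤ ∑ s ∈ Z, ‖RP Q r' s.im‖ ^ 2 := by rw [hW, hL]; exact hfr.1
    linarith
  refine ⟨Z.filter (fun s => ¬ A < ‖Mp V N s‖ ^ 2 * ‖deriv riemannZeta s‖ ^ 2),
    fun s hs => hiz s (Finset.mem_filter.1 hs).1, ?_⟩
  have hsumG : W / 120 ≤ A ^ (k + 1) *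
      ∑ s ∈ Z.filter (fun s => ¬ A < ‖Mp V N s‖ ^ 2 * ‖deriv riemannZeta s‖ ^ 2),
      ((‖deriv riemannZeta s‖ ^ 2) ^ (k + 1))⁻¹ := by
    refine hmain.trans ?_
    rw [Finset.mul_sum]
    refine Finset.sum_le_sum fun s hs => ?_
    rw [Finset.mem_filter, not_lt] at hs
    rw [hRPQ s hs.1]
    have hiz' := hiz s hs.1
    have hsim : 1 < s.im := by linarith [hiz'.lo]
    have hder : 0 < ‖deriv riemannZeta s‖ :=
      norm_pos_iff.2 (deriv_of_order (ne_one hsim) hiz'.zero hiz'.simple)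
    rw [← div_eq_mul_inv, le_div_iff₀ (by positivity), ← mul_pow]
    exact pow_le_pow_left₀ (by positivity) hs.2 _
  rw [← hL]
  have hXk : 0 < (400 * X) ^ (k + 1) := by positivity
  have hLk : 0 < L ^ (2 * (k + 1)) := by positivity
  have h3 : L ^ (2 * (k + 1)) * (cw / 120 * (T * L ^ (k ^ 2))) ≤ W / 120 := by
    calc L ^ (2 * (k + 1)) * (cw / 120 * (T * L ^ (k ^ 2))) =
        (T * L * (cw * L ^ ((k + 1) ^ 2))) / 120 := by
          have e1 : 2 * (k + 1) + k ^ 2 = (k + 1) ^ 2 + 1 := by ring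
          have e2 : L ^ (2 * (k + 1)) * L ^ (k ^ 2) = L ^ ((k + 1) ^ 2) * L := by
            rw [← pow_add, e1, pow_succ]
          calc _ = cw / 120 * T * (L ^ (2 * (k + 1)) * L ^ (k ^ 2)) := by ring
            _ = _ := by rw [e2]; ring
      _ ≤ _ := by gcongr
  have h4 : A ^ (k + 1) = (400 * X) ^ (k + 1) * L ^ (2 * (k + 1)) := by
    rw [hA, mul_pow, ← pow_mul]
  rw [h4] at hsumG
  rw [div_mul_eq_mul_div, div_le_iff₀ hXk]
  have h5 := h3.trans hsumG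
  have h6 : L ^ (2 * (k + 1)) * (cw / 120 * (T * L ^ (k ^ 2))) ≤ L ^ (2 * (k + 1)) *
      ((∑ s ∈ Z.filter (fun s => ¬ A < ‖Mp V N s‖ ^ 2 * ‖deriv riemannZeta s‖ ^ 2),
      ((‖deriv riemannZeta s‖ ^ 2) ^ (k + 1))⁻¹) * (400 * X) ^ (k + 1)) := by
    refine h5.trans (le_of_eq ?_)
    ring
  exact le_of_mul_le_mul_left h6 hLk

end Run7.h311.MO
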