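import Pool.Agent.Run7.h311.EX.Res
import Pool.Agent.Helper601.Mertens

/-! # Powers of Dirichlet polynomials: the coefficients at squarefree integers and their squares -/

set_option autoImplicit false

open Filter Topology
open scoped BigOperators

namespace Run7.h311.MO

open Pool.Agent.N802 Pool.Agent.N802.U Pool.Agent.N802.WD Pool.Agent.N802.WD.Msd
open Pool.Agent.Helper601.Mertens (PP mertens_log mertens_inv)

/-- convolution at a product of distinct primes -/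
lemma cv_sqf {A : Finset ℕ} (hA : ∀ p ∈ A, p.Prime) {Pd Sd : Finset ℕ} {b c : ℕ → ℂ}
    (hPd : ∀ B ⊆ A, (∏ p ∈ B, p) ∈ Pd) (hSd : ∀ B ⊆ A, (∏ p ∈ B, p) ∈ Sd) :
    cv Pd Sd b c (∏ p ∈ A, p) = ∑ B ∈ A.powerset, b (∏ p ∈ B, p) * c (∏ p ∈ A \ B, p) := by
  have hpf : ∀ B ⊆ A, (∏ p ∈ B, p).primeFactors = B := fun B hB =>
    Nat.primeFactors_prod fun p hp => hA p (hB hp)
  have hsq : Squarefree (∏ p ∈ A, p) := by
    refine Finset.squarefree_prod_of_pairwise_isCoprime (fun p hp q hq hpq => ?_)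
      (fun p hp => (hA p hp).squarefree)
    exact Nat.coprime_iff_isRelPrime.1
      ((Nat.coprime_primes (hA p hp) (hA q hq)).2 hpq)
  have hmul : ∀ B ⊆ A, (∏ p ∈ B, p) * ∏ p ∈ A \ B, p = ∏ p ∈ A, p := fun B hB => by
    rw [mul_comm]
    exact Finset.prod_sdiff hB
  unfold cv
  symm
  refine Finset.sum_bij (fun B _ => (∏ p ∈ B, p, ∏ p ∈ A \ B, p)) ?_ ?_ ?_ ?_
  · intro B hB
    rw [Finset.mem_powerset] at hB
    rw [Finset.mem_filter, Finset.mem_product]
    exact ⟨⟨hPd B hB, hSd _ Finset.sdiff_subset⟩, hmul B hB⟩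
  · intro B hB B' hB' h
    rw [Finset.mem_powerset] at hB hB'
    have h2 : (∏ p ∈ B, p).primeFactors = (∏ p ∈ B', p).primeFactors :=
      congrArg _ (congrArg Prod.fst h)
    rwa [hpf B hB, hpf B' hB'] at h2
  · rintro ⟨d, e⟩ hde
    rw [Finset.mem_filter, Finset.mem_product] at hde
    have h2 : d * e = ∏ p ∈ A, p := hde.2
    have hd : d ∣ ∏ p ∈ A, p := ⟨e, h2.symm⟩
    have hdsq := hsq.squarefree_of_dvd hd
    have hpos : 0 < ∏ p ∈ A, p := Finset.prod_pos fun p hp => (hA p hp).pos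
    have hdA : d.primeFactors ⊆ A := by
      have h3 := Nat.primeFactors_mono hd hpos.ne'
      rwa [hpf A (Finset.Subset.refl A)] at h3
    have hd0 : 0 < d := Nat.pos_of_dvd_of_pos hd hpos
    refine ⟨d.primeFactors, Finset.mem_powerset.2 hdA, ?_⟩
    have h3 : ∏ p ∈ d.primeFactors, p = d := Nat.prod_primeFactors_of_squarefree hdsq
    have h4 := hmul _ hdA
    rw [h3, ← h2] at h4
    have h5 := Nat.eq_of_mul_eq_mul_left hd0 h4
    rw [Prod.mk.injEq]
    exact ⟨h3, h5⟩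
  · intro B _
    rfl

/-- the coefficients of the power `k + 1` -/
noncomputable def pw (M : ℕ) (b : ℕ → ℂ) : ℕ → ℕ → ℂ
  | 0 => b
  | k + 1 => cv (Finset.Icc 1 M) (Finset.Icc 1 (M ^ (k + 1))) b (pw M b k)

lemma pw_RP (M : ℕ) (b : ℕ → ℂ) (k : ℕ) (t : ℝ) :
    RP (Finset.Icc 1 (M ^ (k + 1))) (pw M b k) t = RP (Finset.Icc 1 M) b t ^ (k + 1) := by
  induction k with
  | zero =>
    rw [zero_add, pow_one, pow_one]
    rfl
  | succ k ih =>
    have h := RP_mul (Finset.Icc 1 M) (Finset.Icc 1 (M ^ (k + 1))) b (pw M b k)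
      (fun n hn => (Finset.mem_Icc.1 hn).1) (fun n hn => (Finset.mem_Icc.1 hn).1)
      (Finset.Icc 1 (M ^ (k + 1 + 1))) (fun m hm n hn => by
        rw [Finset.mem_Icc] at hm hn ⊢
        refine ⟨Nat.mul_pos hm.1 hn.1, ?_⟩
        rw [pow_succ, mul_comm (M ^ (k + 1))]
        exact Nat.mul_le_mul hm.2 hn.2) t
    rw [pow_succ' (RP (Finset.Icc 1 M) b t) (k + 1), ← ih, h]
    rfl

/-- the coefficients of the power at squarefree integers -/
lemma pw_sqf {M : ℕ} {b : ℕ → ℂ} {s : ℝ} {A : Finset ℕ} (hA : ∀ p ∈ A, p.Prime)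
    (hM : ∏ p ∈ A, p ≤ M)
    (hb : ∀ B ⊆ A, b (∏ p ∈ B, p) = ((s ^ B.card / Real.sqrt ((∏ p ∈ B, p : ℕ) : ℝ) : ℝ) : ℂ))
    (k : ℕ) : ∀ B ⊆ A, pw M b k (∏ p ∈ B, p) =
      (((s * (k + 1)) ^ B.card / Real.sqrt ((∏ p ∈ B, p : ℕ) : ℝ) : ℝ) : ℂ) := by
  have hpos : ∀ B ⊆ A, 0 < ∏ p ∈ B, p := fun B hB => Finset.prod_pos fun p hp => (hA p (hB hp)).pos
  have hle : ∀ B ⊆ A, ∏ p ∈ B, p ≤ M := by
    intro B hB
    refine le_trans ?_ hM
    apply Nat.le_of_dvd (hpos A (Finset.Subset.refl A))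
    exact Finset.prod_dvd_prod_of_subset _ _ _ hB
  induction k with
  | zero =>
    intro B hB
    have h := hb B hB
    simp only [Nat.cast_zero, zero_add, mul_one]
    exact h
  | succ k ih =>
    intro B hB
    have hM1 : 1 ≤ M := (hpos B hB).trans_le (hle B hB)
    show cv (Finset.Icc 1 M) (Finset.Icc 1 (M ^ (k + 1))) b (pw M b k) (∏ p ∈ B, p) = _
    rw [cv_sqf (A := B) (fun p hp => hA p (hB hp))
      (fun D hD => Finset.mem_Icc.2 ⟨hpos D (hD.trans hB), hle D (hD.trans hB)⟩)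
      (fun D hD => Finset.mem_Icc.2 ⟨hpos D (hD.trans hB),
        (hle D (hD.trans hB)).trans (Nat.le_self_pow (by omega) M)⟩)]
    have h1 : ∀ D ∈ B.powerset, b (∏ p ∈ D, p) * pw M b k (∏ p ∈ B \ D, p) =
        ((s ^ B.card / Real.sqrt ((∏ p ∈ B, p : ℕ) : ℝ) *
          ((1 : ℝ) ^ D.card * ((k : ℝ) + 1) ^ (B.card - D.card)) : ℝ) : ℂ) := by
      intro D hD
      rw [Finset.mem_powerset] at hD
      rw [hb D (hD.trans hB), ih _ (Finset.sdiff_subset.trans hB), ← Complex.ofReal_mul]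
      congr 1
      have h3 : Real.sqrt ((∏ p ∈ B, p : ℕ) : ℝ) = Real.sqrt ((∏ p ∈ D, p : ℕ) : ℝ) *
          Real.sqrt ((∏ p ∈ B \ D, p : ℕ) : ℝ) := by
        rw [← Real.sqrt_mul (by positivity), ← Nat.cast_mul, mul_comm, Finset.prod_sdiff hD]
      have h4 : (B \ D).card = B.card - D.card := Finset.card_sdiff_of_subset hD
      have h5 : B.card = D.card + (B.card - D.card) := by
        have := Finset.card_le_card hD
        omega
      have h6 : s ^ B.card = s ^ D.card * s ^ (B.card - D.card) := by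
        rw [← pow_add, ← h5]
      rw [h3, h4, h6, one_pow, mul_pow]
      ring
    rw [Finset.sum_congr rfl h1, ← Complex.ofReal_sum, ← Finset.mul_sum,
      Finset.sum_pow_mul_eq_add_pow]
    congr 1
    push_cast
    rw [mul_pow]
    ring

/-- the sum of the squares of the coefficients of a power -/
lemma w1_pw {M : ℕ} {b : ℕ → ℂ} {s : ℝ} (hs : s ^ 2 = 1) {P : Finset ℕ} (hP : ∀ p ∈ P, p.Prime)
    {X : ℝ} (hX : X ≤ M)
    (hb : ∀ B ⊆ P, ((∏ p ∈ B, p : ℕ) : ℝ) ≤ X →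
      b (∏ p ∈ B, p) = ((s ^ B.card / Real.sqrt ((∏ p ∈ B, p : ℕ) : ℝ) : ℝ) : ℂ)) (k : ℕ) :
    ∑ A ∈ P.powerset.filter (fun A => ((∏ p ∈ A, p : ℕ) : ℝ) ≤ X),
      ∏ p ∈ A, (((k : ℝ) + 1) ^ 2 / (p : ℝ)) ≤ w1 (Finset.Icc 1 (M ^ (k + 1))) (pw M b k) := by
  have hpos : ∀ B ⊆ P, 0 < ∏ p ∈ B, p := fun B hB => Finset.prod_pos fun p hp => (hP p (hB hp)).pos
  have h1 : ∀ A ∈ P.powerset.filter (fun A => ((∏ p ∈ A, p : ℕ) : ℝ) ≤ X),
      ∏ p ∈ A, (((k : ℝ) + 1) ^ 2 / (p : ℝ)) = ‖pw M b k (∏ p ∈ A, p)‖ ^ 2 := by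
    intro A hA
    rw [Finset.mem_filter, Finset.mem_powerset] at hA
    have h2 := pw_sqf (M := M) (b := b) (s := s) (A := A) (fun p hp => hP p (hA.1 hp))
      (by exact_mod_cast hA.2.trans hX) (fun B hB => hb B (hB.trans hA.1) (by
        refine le_trans ?_ hA.2
        exact_mod_cast Nat.le_of_dvd (hpos A hA.1) (Finset.prod_dvd_prod_of_subset _ _ _ hB))) k A
      (Finset.Subset.refl A)
    have e1 : ((s * ((k : ℝ) + 1)) ^ A.card) ^ 2 = (((k : ℝ) + 1) ^ 2) ^ A.card := by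
      rw [← pow_mul, mul_comm A.card 2, pow_mul, mul_pow, hs, one_mul]
    rw [h2, Complex.norm_real, Real.norm_eq_abs, sq_abs, div_pow, Real.sq_sqrt (by positivity),
      Finset.prod_div_distrib, Finset.prod_const, e1]
    push_cast
    rfl
  rw [Finset.sum_congr rfl h1]
  have hinj : Set.InjOn (fun A : Finset ℕ => ∏ p ∈ A, p)
      (P.powerset.filter (fun A => ((∏ p ∈ A, p : ℕ) : ℝ) ≤ X) : Set (Finset ℕ)) := by
    intro A hA B hB h
    rw [Finset.mem_coe, Finset.mem_filter, Finset.mem_powerset] at hA hB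
    have h3 : (∏ p ∈ A, p).primeFactors = (∏ p ∈ B, p).primeFactors := congrArg _ h
    rwa [Nat.primeFactors_prod fun p hp => hP p (hA.1 hp),
      Nat.primeFactors_prod fun p hp => hP p (hB.1 hp)] at h3
  rw [← Finset.sum_image (f := fun n => ‖pw M b k n‖ ^ 2) hinj]
  unfold w1
  refine Finset.sum_le_sum_of_subset_of_nonneg ?_ fun _ _ _ => sq_nonneg _
  intro n hn
  rw [Finset.mem_image] at hn
  obtain ⟨A, hA, rfl⟩ := hn
  rw [Finset.mem_filter, Finset.mem_powerset] at hA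
  rw [Finset.mem_Icc]
  have h4 : ∏ p ∈ A, p ≤ M := by exact_mod_cast hA.2.trans hX
  exact ⟨hpos A hA.1, h4.trans (Nat.le_self_pow (by omega) M)⟩

/-! ### the lower bound -/

lemma exp_le_two {t : ℝ} (h0 : 0 ≤ t) (h1 : t ≤ 1) : Real.exp t ≤ 1 + 2 * t := by
  have h2 : Real.exp t ≤ 1 + t + t ^ 2 := by
    have h3 := Real.abs_exp_sub_one_sub_id_le (x := t) (by rw [abs_of_nonneg h0]; exact h1)
    have h4 := (abs_le.1 h3).2
    linarith
  nlinarith

lemma one_add_ge {x : ℝ} (hx : 0 ≤ x) : Real.exp (x - x ^ 2) ≤ 1 + x := by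
  have h1 : Real.exp (-(x - x ^ 2)) ≥ 1 - (x - x ^ 2) := by
    have := Real.add_one_le_exp (-(x - x ^ 2))
    linarith
  have h2 : 0 < 1 - (x - x ^ 2) := by nlinarith [sq_nonneg (x - 1)]
  have h3 : 1 ≤ (1 + x) * (1 - (x - x ^ 2)) := by nlinarith [pow_nonneg hx 3]
  have h4 : Real.exp (x - x ^ 2) * Real.exp (-(x - x ^ 2)) = 1 := by
    rw [← Real.exp_add]; simp
  have h5 := Real.exp_pos (x - x ^ 2)
  by_contra hc
  push Not at hc
  have h6 : (1 + x) * (1 - (x - x ^ 2)) < Real.exp (x - x ^ 2) * Real.exp (-(x - x ^ 2)) := by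
    calc (1 + x) * (1 - (x - x ^ 2)) < Real.exp (x - x ^ 2) * (1 - (x - x ^ 2)) :=
          mul_lt_mul_of_pos_right hc h2
      _ ≤ _ := mul_le_mul_of_nonneg_left h1 h5.le
  linarith

lemma inv_sq_sum (N : ℕ) : ∑ p ∈ PP N, 1 / (p : ℝ) ^ 2 ≤ 2 := by
  have h1 : ∑ p ∈ PP N, 1 / (p : ℝ) ^ 2 ≤ ∑ n ∈ Finset.Icc 1 N, 1 / (n : ℝ) ^ 2 :=
    Finset.sum_le_sum_of_subset_of_nonneg (Finset.filter_subset _ _) fun _ _ _ => by positivity
  refine h1.trans ?_
  have key : ∀ N : ℕ, 1 ≤ N → ∑ n ∈ Finset.Icc 1 N, 1 / (n : ℝ) ^ 2 ≤ 2 - 1 / (N : ℝ) := by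
    intro N hN
    induction N, hN using Nat.le_induction with
    | base => norm_num
    | succ N hN ih =>
      rw [Finset.sum_Icc_succ_top (by omega)]
      push_cast
      have hN0 : (0 : ℝ) < N := by exact_mod_cast hN
      have h2 : 1 / ((N : ℝ) + 1) ^ 2 ≤ 1 / (N : ℝ) - 1 / ((N : ℝ) + 1) := by
        rw [div_sub_div _ _ hN0.ne' (by positivity), div_le_div_iff₀ (by positivity) (by positivity)]
        nlinarith
      linarith
  rcases Nat.eq_zero_or_pos N with h | h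
  · subst h; norm_num
  · have := key N h
    have h2 : (0 : ℝ) < 1 / (N : ℝ) := by positivity
    linarith

/-- **the sum over squarefree integers from below** -/
theorem sqf_lower {κ α : ℝ} (hκ : 0 < κ) (hα : 0 < α) : ∃ c T0 : ℝ, 0 < c ∧ 1 < T0 ∧ ∀ T : ℝ,
    T0 ≤ T → ∃ P : Finset ℕ, (∀ p ∈ P, p.Prime) ∧ c * Real.log T ^ κ ≤
      ∑ A ∈ P.powerset.filter (fun A => ((∏ p ∈ A, p : ℕ) : ℝ) ≤ T ^ α), ∏ p ∈ A, (κ / (p : ℝ)) := by
  obtain ⟨C1, hC1⟩ := mertens_log
  obtain ⟨C2, hC2⟩ := mertens_inv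
  obtain ⟨B, hB⟩ : ∃ B : ℝ, B = 2 * κ * (1 + |C1|) + 1 := ⟨_, rfl⟩
  have hB1 : 1 ≤ B := by rw [hB]; have : 0 ≤ 2 * κ * (1 + |C1|) := by positivity
                         linarith
  have hB0 : 0 < B := by linarith
  obtain ⟨η, hη⟩ : ∃ η : ℝ, η = α / B := ⟨_, rfl⟩
  have hη0 : 0 < η := by rw [hη]; positivity
  refine ⟨(η / 2) ^ κ * Real.exp (-(κ * |C2| + 2 * κ ^ 2)) / 2, Real.exp (4 / η + 1), by positivity,
    by rw [← Real.exp_zero]; exact Real.exp_lt_exp.2 (by positivity), fun T hT => ?_⟩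
  have hTp : 0 < T := (Real.exp_pos _).trans_le hT
  obtain ⟨L, hL⟩ : ∃ L : ℝ, L = Real.log T := ⟨_, rfl⟩
  have hLb : 4 / η + 1 ≤ L := by
    rw [hL, Real.le_log_iff_exp_le hTp]
    exact hT
  rw [← hL]
  have h4η : 0 < 4 / η := by positivity
  have hLp : 0 < L := by linarith
  have hηL : 4 ≤ η * L := by
    have h1 : 4 / η ≤ L := by linarith
    rw [div_le_iff₀ hη0] at h1
    linarith
  obtain ⟨N, hN⟩ : ∃ N : ℕ, N = ⌊T ^ η⌋₊ := ⟨_, rfl⟩
  have hTη : T ^ η = Real.exp (η * L) := by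
    rw [Real.rpow_def_of_pos hTp, ← hL, mul_comm]
  have hN1 : (N : ℝ) ≤ T ^ η := by rw [hN]; exact Nat.floor_le (by positivity)
  have hN2 : Real.exp (η * L / 2) ≤ N := by
    have h1 : T ^ η < N + 1 := by rw [hN]; exact Nat.lt_floor_add_one _
    have h2 : Real.exp (η * L) = Real.exp (η * L / 2) * Real.exp (η * L / 2) := by
      rw [← Real.exp_add]
      congr 1
      ring
    have h3 : 3 ≤ Real.exp (η * L / 2) := by
      have := Real.add_one_le_exp (η * L / 2)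
      linarith
    rw [hTη, h2] at h1
    nlinarith
  have hN3 : 3 ≤ N := by
    have h3 : (3 : ℝ) ≤ Real.exp (η * L / 2) := by
      have := Real.add_one_le_exp (η * L / 2)
      linarith
    exact_mod_cast h3.trans hN2
  have hNp : (0 : ℝ) < N := by exact_mod_cast (by omega : 0 < N)
  obtain ⟨y, hy⟩ : ∃ y : ℝ, y = Real.log N := ⟨_, rfl⟩
  have hy1 : η * L / 2 ≤ y := by
    rw [hy, Real.le_log_iff_exp_le hNp]
    exact hN2
  have hy2 : y ≤ η * L := by
    have h1 := Real.log_le_log hNp hN1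
    rw [hTη, Real.log_exp] at h1
    rw [hy]
    exact h1
  have hy1' : 1 ≤ y := by linarith
  have hy0 : 0 < y := by linarith
  have hm1 := hC1 N (by omega)
  have hm2 := hC2 N hN3
  rw [← hy] at hm1 hm2
  refine ⟨PP N, fun p hp => (Finset.mem_filter.1 hp).2, ?_⟩
  have hP0 : ∀ p ∈ PP N, (0 : ℝ) < p ∧ (p : ℝ) ≤ N := fun p hp => by
    have h1 := Finset.mem_Icc.1 (Finset.mem_filter.1 hp).1
    exact ⟨by exact_mod_cast h1.1, by exact_mod_cast h1.2⟩
  set F := ∏ p ∈ PP N, (1 + κ / (p : ℝ)) with hF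
  have hF0 : 0 < F := Finset.prod_pos fun p hp => by
    have := (hP0 p hp).1
    positivity
  -- the full product
  have hFlow : (η / 2) ^ κ * Real.exp (-(κ * |C2| + 2 * κ ^ 2)) * L ^ κ ≤ F := by
    have h1 : Real.exp (∑ p ∈ PP N, (κ / (p : ℝ) - (κ / (p : ℝ)) ^ 2)) ≤ F := by
      rw [Real.exp_sum, hF]
      refine Finset.prod_le_prod (fun p _ => (Real.exp_pos _).le) fun p hp => ?_
      exact one_add_ge (by have := (hP0 p hp).1; positivity)
    have h2 : κ * (Real.log y - |C2|) - 2 * κ ^ 2 ≤ ∑ p ∈ PP N, (κ / (p : ℝ) - (κ / (p : ℝ)) ^ 2) := by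
      rw [Finset.sum_sub_distrib]
      have e1 : ∑ p ∈ PP N, κ / (p : ℝ) = κ * ∑ p ∈ PP N, 1 / (p : ℝ) := by
        rw [Finset.mul_sum]
        exact Finset.sum_congr rfl fun p _ => by ring
      have e2 : ∑ p ∈ PP N, (κ / (p : ℝ)) ^ 2 = κ ^ 2 * ∑ p ∈ PP N, 1 / (p : ℝ) ^ 2 := by
        rw [Finset.mul_sum]
        exact Finset.sum_congr rfl fun p _ => by ring
      rw [e1, e2]
      have h3 := inv_sq_sum N
      have h4 := (abs_le.1 hm2).1
      have h5 := le_abs_self C2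
      have h6 : κ * (Real.log y - |C2|) ≤ κ * ∑ p ∈ PP N, 1 / (p : ℝ) := by
        gcongr
        linarith
      have h7 : κ ^ 2 * ∑ p ∈ PP N, 1 / (p : ℝ) ^ 2 ≤ κ ^ 2 * 2 := by gcongr
      linarith
    refine le_trans ?_ ((Real.exp_le_exp.2 h2).trans h1)
    have h3 : Real.exp (κ * (Real.log y - |C2|) - 2 * κ ^ 2) =
        Real.exp (-(κ * |C2| + 2 * κ ^ 2)) * y ^ κ := by
      rw [Real.rpow_def_of_pos hy0, ← Real.exp_add]
      congr 1
      ring
    rw [h3]
    have h4 : (η / 2) ^ κ * L ^ κ ≤ y ^ κ := by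
      rw [← Real.mul_rpow (by positivity) hLp.le]
      apply Real.rpow_le_rpow (by positivity) _ hκ.le
      linarith
    calc (η / 2) ^ κ * Real.exp (-(κ * |C2| + 2 * κ ^ 2)) * L ^ κ =
        Real.exp (-(κ * |C2| + 2 * κ ^ 2)) * ((η / 2) ^ κ * L ^ κ) := by ring
      _ ≤ _ := by gcongr
  -- the tail
  have htail : ∑ A ∈ (PP N).powerset.filter (fun A => ¬ ((∏ p ∈ A, p : ℕ) : ℝ) ≤ T ^ α),
      ∏ p ∈ A, (κ / (p : ℝ)) ≤ F / 2 := by
    have h1 : ∀ A ∈ (PP N).powerset.filter (fun A => ¬ ((∏ p ∈ A, p : ℕ) : ℝ) ≤ T ^ α),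
        ∏ p ∈ A, (κ / (p : ℝ)) ≤
        Real.exp (-B) * ∏ p ∈ A, (κ / (p : ℝ) * Real.exp (Real.log p / y)) := by
      intro A hA
      rw [Finset.mem_filter, Finset.mem_powerset, not_le] at hA
      rw [Finset.prod_mul_distrib, ← Real.exp_sum, ← Finset.sum_div]
      have h2 : ∑ p ∈ A, Real.log (p : ℝ) = Real.log ((∏ p ∈ A, p : ℕ) : ℝ) := by
        push_cast
        rw [Real.log_prod]
        intro p hp
        exact (hP0 p (hA.1 hp)).1.ne'
      have h3 : α * L ≤ Real.log ((∏ p ∈ A, p : ℕ) : ℝ) := by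
        have h4 := Real.log_le_log (by positivity) hA.2.le
        rw [Real.log_rpow hTp, ← hL] at h4
        exact h4
      have h4 : B ≤ (∑ p ∈ A, Real.log (p : ℝ)) / y := by
        rw [h2, le_div_iff₀ hy0]
        refine le_trans ?_ h3
        calc B * y ≤ B * (η * L) := by gcongr
          _ = α * L := by rw [hη]; field_simp
      have h5 : 1 ≤ Real.exp (-B) * Real.exp ((∑ p ∈ A, Real.log (p : ℝ)) / y) := by
        rw [← Real.exp_add]
        apply Real.one_le_exp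
        linarith
      have h6 : 0 ≤ ∏ p ∈ A, (κ / (p : ℝ)) := Finset.prod_nonneg fun p _ => by positivity
      calc ∏ p ∈ A, (κ / (p : ℝ)) = 1 * ∏ p ∈ A, (κ / (p : ℝ)) := (one_mul _).symm
        _ ≤ (Real.exp (-B) * Real.exp ((∑ p ∈ A, Real.log (p : ℝ)) / y)) *
            ∏ p ∈ A, (κ / (p : ℝ)) := by gcongr
        _ = _ := by ring
    refine (Finset.sum_le_sum h1).trans ?_
    rw [← Finset.mul_sum]
    have h2 : ∑ A ∈ (PP N).powerset.filter (fun A => ¬ ((∏ p ∈ A, p : ℕ) : ℝ) ≤ T ^ α),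
        ∏ p ∈ A, (κ / (p : ℝ) * Real.exp (Real.log p / y)) ≤
        ∏ p ∈ PP N, (1 + κ / (p : ℝ) * Real.exp (Real.log p / y)) := by
      rw [Finset.prod_one_add]
      exact Finset.sum_le_sum_of_subset_of_nonneg (Finset.filter_subset _ _)
        fun A _ _ => Finset.prod_nonneg fun p _ => by positivity
    have h3 : ∏ p ∈ PP N, (1 + κ / (p : ℝ) * Real.exp (Real.log p / y)) ≤
        F * Real.exp (2 * κ * (1 + |C1|)) := by
      calc ∏ p ∈ PP N, (1 + κ / (p : ℝ) * Real.exp (Real.log p / y)) ≤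
          ∏ p ∈ PP N, ((1 + κ / (p : ℝ)) * Real.exp (2 * κ / y * (Real.log p / p))) := by
            refine Finset.prod_le_prod (fun p _ => by positivity) fun p hp => ?_
            obtain ⟨hp0, hpN⟩ := hP0 p hp
            have hp1 : (1 : ℝ) ≤ p := by exact_mod_cast (Finset.mem_Icc.1 (Finset.mem_filter.1 hp).1).1
            have hlp : 0 ≤ Real.log p := Real.log_nonneg hp1
            have hlp2 : Real.log p / y ≤ 1 := by
              rw [div_le_one hy0, hy]
              exact Real.log_le_log hp0 hpN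
            have h4 := exp_le_two (t := Real.log p / y) (by positivity) hlp2
            have h5 : 0 < κ / (p : ℝ) := by positivity
            have h6 := Real.add_one_le_exp (2 * κ / y * (Real.log p / p))
            have h7 : κ / (p : ℝ) * (2 * (Real.log p / y)) = 2 * κ / y * (Real.log p / p) := by
              field_simp
            have h8 : 0 ≤ 2 * κ / y * (Real.log p / p) := by positivity
            calc 1 + κ / (p : ℝ) * Real.exp (Real.log p / y) ≤
                1 + κ / (p : ℝ) * (1 + 2 * (Real.log p / y)) := by gcongr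
              _ = 1 + κ / (p : ℝ) + 2 * κ / y * (Real.log p / p) := by rw [← h7]; ring
              _ ≤ (1 + κ / (p : ℝ)) * (2 * κ / y * (Real.log p / p) + 1) := by nlinarith
              _ ≤ _ := by gcongr
        _ = F * Real.exp (2 * κ / y * ∑ p ∈ PP N, Real.log p / p) := by
            rw [Finset.prod_mul_distrib, ← Real.exp_sum, ← Finset.mul_sum]
        _ ≤ F * Real.exp (2 * κ * (1 + |C1|)) := by
            refine mul_le_mul_of_nonneg_left (Real.exp_le_exp.2 ?_) hF0.le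
            have h4 := (abs_le.1 hm1).2
            have h5 := le_abs_self C1
            have h6 : 0 ≤ |C1| := abs_nonneg _
            calc 2 * κ / y * ∑ p ∈ PP N, Real.log p / p ≤ 2 * κ / y * (y + |C1|) := by
                  gcongr
                  linarith
              _ = 2 * κ * (1 + |C1| / y) := by field_simp
              _ ≤ 2 * κ * (1 + |C1|) := by
                  gcongr
                  exact div_le_self h6 hy1'
    have h4 : Real.exp (-B) * Real.exp (2 * κ * (1 + |C1|)) ≤ 1 / 2 := by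
      rw [← Real.exp_add, hB]
      have h5 : -(2 * κ * (1 + |C1|) + 1) + 2 * κ * (1 + |C1|) = -1 := by ring
      rw [h5, Real.exp_neg, ← one_div]
      apply one_div_le_one_div_of_le (by norm_num)
      linarith [Real.exp_one_gt_d9]
    calc Real.exp (-B) * _ ≤ Real.exp (-B) * (F * Real.exp (2 * κ * (1 + |C1|))) := by
          gcongr
          exact h2.trans h3
      _ = F * (Real.exp (-B) * Real.exp (2 * κ * (1 + |C1|))) := by ring
      _ ≤ F * (1 / 2) := by gcongr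
      _ = F / 2 := by ring
  have hsplit := Finset.sum_filter_add_sum_filter_not (PP N).powerset
    (fun A => ((∏ p ∈ A, p : ℕ) : ℝ) ≤ T ^ α) (fun A => ∏ p ∈ A, (κ / (p : ℝ)))
  rw [← Finset.prod_one_add, ← hF] at hsplit
  have h1 : (η / 2) ^ κ * Real.exp (-(κ * |C2| + 2 * κ ^ 2)) / 2 * L ^ κ =
      (η / 2) ^ κ * Real.exp (-(κ * |C2| + 2 * κ ^ 2)) * L ^ κ / 2 := by ring
  rw [h1]
  linarith

end Run7.h311.MO
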